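import Pool.Agent.Helper55.RL.Lat

/-!
# The continuity of the extension of an invariant class, for all primes `p`
-/

set_option autoImplicit false
set_option linter.all false

open scoped Classical

namespace Pool.Agent.Helper55.RL

open Pool.Agent.Helper55.UV

section inv

variable {p : ℕ} [hpf : Fact p.Prime] {N : Type} {d : ℕ}

/-- finitely many elements are enough -/
theorem fin_inv (a : N → (Fin d → ℚ_[p]) →ₗ[ℚ_[p]] (Fin d → ℚ_[p])) {I : Set N}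
    (h : ∀ y, (∀ σ ∈ I, a σ y = y) → y = 0) :
    ∃ (e : ℕ) (s : Fin e → N), (∀ i, s i ∈ I) ∧ ∀ y, (∀ i, a (s i) y = y) → y = 0 := by
  let W : List N → Submodule ℚ_[p] (Fin d → ℚ_[p]) := fun l =>
    { carrier := {y | ∀ σ ∈ l, a σ y = y}
      zero_mem' := fun σ _ => map_zero _
      add_mem' := fun {x y} hx hy σ hσ => by rw [map_add, hx σ hσ, hy σ hσ]
      smul_mem' := fun c x hx σ hσ => by rw [map_smul, hx σ hσ] }
  have hex : ∃ n : ℕ, ∃ l : List N, (∀ σ ∈ l, σ ∈ I) ∧ Module.finrank ℚ_[p] (W l) = n :=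
    ⟨_, [], by simp, rfl⟩
  obtain ⟨l, hl, hn⟩ := Nat.find_spec hex
  have hmin : ∀ l' : List N, (∀ σ ∈ l', σ ∈ I) →
      Module.finrank ℚ_[p] (W l) ≤ Module.finrank ℚ_[p] (W l') := by
    intro l' hl'
    rw [hn]
    exact Nat.find_min' hex ⟨l', hl', rfl⟩
  have hbot : ∀ y, (∀ σ ∈ l, a σ y = y) → y = 0 := by
    intro y hy
    apply h
    intro σ hσ
    have h1 : W (σ :: l) ≤ W l := fun z hz τ hτ => hz τ (List.mem_cons_of_mem _ hτ)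
    have h2 : W (σ :: l) = W l := by
      apply Submodule.eq_of_le_of_finrank_le h1
      apply hmin
      intro τ hτ
      rcases List.mem_cons.1 hτ with h3 | h3
      · rw [h3]; exact hσ
      · exact hl τ h3
    have h3 : y ∈ W l := hy
    rw [← h2] at h3
    exact h3 σ (List.mem_cons_self ..)
  refine ⟨l.length, l.get, fun i => hl _ (List.get_mem _ _), fun y hy => hbot y fun σ hσ => ?_⟩
  obtain ⟨i, rfl⟩ := List.get_of_mem hσ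
  exact hy i

theorem exists_left (a : N → (Fin d → ℚ_[p]) →ₗ[ℚ_[p]] (Fin d → ℚ_[p])) {I : Set N}
    (h : ∀ y, (∀ σ ∈ I, a σ y = y) → y = 0) :
    ∃ (e : ℕ) (s : Fin e → N) (M : ℕ), (∀ i, s i ∈ I) ∧
      ∀ (m : ℤ) (y : Fin d → ℚ_[p]), (∀ i, a (s i) y - y ∈ LtP p d m) → y ∈ LtP p d (m - M) := by
  obtain ⟨e, s, hs, hinj⟩ := fin_inv a h
  let Φ : (Fin d → ℚ_[p]) →ₗ[ℚ_[p]] (Fin e → Fin d → ℚ_[p]) :=
    LinearMap.pi fun i => a (s i) - LinearMap.id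
  have hΦ : LinearMap.ker Φ = ⊥ := by
    rw [LinearMap.ker_eq_bot']
    intro y hy
    apply hinj
    intro i
    have h1 : a (s i) y - y = 0 := congrFun hy i
    exact sub_eq_zero.1 h1
  obtain ⟨Ψ, hΨ⟩ := LinearMap.exists_leftInverse_of_injective Φ hΦ
  obtain ⟨M, hM⟩ := bounded Ψ
  refine ⟨e, s, M, hs, fun m y hy => ?_⟩
  have h1 := hM m (Φ y) hy
  have h2 : Ψ (Φ y) = y := LinearMap.congr_fun hΨ y
  rwa [h2] at h1

end inv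

section gal

variable {K F Ω : Type} [Field K] [Field F] [Field Ω] [Algebra K F] [Algebra F Ω] [Algebra K Ω]
  [IsScalarTower K F Ω]

variable {p : ℕ} [hpf : Fact p.Prime]

theorem near_rho {d : ℕ} {ρ : (Ω ≃ₐ[K] Ω) →* GL (Fin d) ℤ_[p]} (hρ : Continuous ρ) (n : ℕ) :
    Near fun τ => ∀ i j, ‖((ρ τ).1 - 1) i j‖ ≤ (p : ℝ) ^ (-(n : ℤ)) := by
  apply near_of_nhds
  have h1 : Continuous fun τ : Ω ≃ₐ[K] Ω => ((ρ τ).1 : Matrix (Fin d) (Fin d) ℤ_[p]) :=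
    Units.continuous_val.comp hρ
  have h2 : ∀ i j, {τ : Ω ≃ₐ[K] Ω | ‖((ρ τ).1 - 1) i j‖ ≤ (p : ℝ) ^ (-(n : ℤ))} ∈
      nhds (1 : Ω ≃ₐ[K] Ω) := by
    intro i j
    have h3 : Continuous fun τ : Ω ≃ₐ[K] Ω => ‖((ρ τ).1 - 1) i j‖ :=
      ((h1.sub continuous_const).matrix_elem i j).norm
    have h4 : {τ : Ω ≃ₐ[K] Ω | ‖((ρ τ).1 - 1) i j‖ < (p : ℝ) ^ (-(n : ℤ))} ∈
        nhds (1 : Ω ≃ₐ[K] Ω) := by
      apply (isOpen_lt h3 continuous_const).mem_nhds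
      show ‖((ρ 1).1 - 1) i j‖ < _
      rw [map_one, Units.val_one, sub_self, Matrix.zero_apply, norm_zero]
      exact zpow_pos (pR_pos p) _
    refine Filter.mem_of_superset h4 fun τ hτ => ?_
    have h5 : ‖((ρ τ).1 - 1) i j‖ < (p : ℝ) ^ (-(n : ℤ)) := hτ
    exact h5.le
  have h3 : {τ : Ω ≃ₐ[K] Ω | ∀ i j, ‖((ρ τ).1 - 1) i j‖ ≤ (p : ℝ) ^ (-(n : ℤ))} =
      ⋂ i, ⋂ j, {τ : Ω ≃ₐ[K] Ω | ‖((ρ τ).1 - 1) i j‖ ≤ (p : ℝ) ^ (-(n : ℤ))} := by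
    ext τ
    simp
  rw [h3]
  exact (Filter.iInter_mem.2 fun i => Filter.iInter_mem.2 fun j => h2 i j)

theorem near_co {d : ℕ} {c : (Ω ≃ₐ[F] Ω) → Fin d → ℚ_[p]} (hc : Continuous c) (h1 : c 1 = 0)
    (m : ℤ) : Near fun τ => c τ ∈ LtP p d m := by
  apply near_of_nhds
  have h4 : {τ : Ω ≃ₐ[F] Ω | ‖c τ‖ < (p : ℝ) ^ (-m)} ∈ nhds (1 : Ω ≃ₐ[F] Ω) := by
    apply (isOpen_lt hc.norm continuous_const).mem_nhds
    show ‖c 1‖ < _
    rw [h1, norm_zero]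
    exact zpow_pos (pR_pos p) _
  refine Filter.mem_of_superset h4 fun τ hτ => ?_
  exact mem_LtP_norm.2 (le_of_lt hτ)

variable {d : ℕ} {ρ : (Ω ≃ₐ[K] Ω) →* GL (Fin d) ℤ_[p]}

/-- the action on `ℚ₂ ^ d` as linear maps -/
noncomputable def acl (ρ : (Ω ≃ₐ[K] Ω) →* GL (Fin d) ℤ_[p]) (σ : Ω ≃ₐ[F] Ω) :
    (Fin d → ℚ_[p]) →ₗ[ℚ_[p]] (Fin d → ℚ_[p]) :=
  Matrix.mulVecLin ((ρ (rH K F Ω σ)).1.map (algebraMap ℤ_[p] ℚ_[p]))

/-- The extension of an invariant class is continuous. -/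
theorem near_C (hρ : Continuous ρ) {c : (Ω ≃ₐ[F] Ω) → Fin d → ℚ_[p]}
    (hc : IsCo (rH K F Ω) (acP ρ) c) (hcc : Continuous c) {C : (Ω ≃ₐ[K] Ω) → Fin d → ℚ_[p]}
    (hconj : ∀ (τ : Ω ≃ₐ[K] Ω) (σ : Ω ≃ₐ[F] Ω), ∃ σ' : Ω ≃ₐ[F] Ω,
      τ * rH K F Ω σ' = rH K F Ω σ * τ)
    (hrel : ∀ (τ : Ω ≃ₐ[K] Ω) (σ σ' : Ω ≃ₐ[F] Ω), τ * rH K F Ω σ' = rH K F Ω σ * τ →
      acP ρ τ (c σ') - c σ = acP ρ (rH K F Ω σ) (C τ) - C τ) {I : Set (Ω ≃ₐ[F] Ω)}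
    (hI : ∀ y : Fin d → ℚ_[p], (∀ σ ∈ I, acP ρ (rH K F Ω σ) y = y) → y = 0) (m : ℤ) :
    Near fun τ => C τ ∈ LtP p d m := by
  have hc1 : c 1 = 0 := by
    have h := hc 1 1
    rw [mul_one, map_one, map_one] at h
    have h2 : (1 : AddMonoid.End (Fin d → ℚ_[p])) (c 1) = c 1 := rfl
    rw [h2] at h
    exact left_eq_add.1 h
  obtain ⟨e, s, M, hs, hM⟩ := exists_left (fun σ => acl (F := F) ρ σ) (I := I) hI
  obtain ⟨S₂, hS₂, hS₂c⟩ := near_co hcc hc1 (m + M)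
  choose μ hμ using fun i => exists_mem_LtP (c (s i))
  obtain ⟨n, hn⟩ : ∃ n : ℕ, ∀ i, m + M ≤ μ i + n := by
    refine ⟨∑ i, (m + M - μ i).toNat, fun i => ?_⟩
    have h1 : (m + M - μ i).toNat ≤ ∑ i, (m + M - μ i).toNat :=
      Finset.single_le_sum (f := fun i => (m + M - μ i).toNat) (fun _ _ => Nat.zero_le _)
        (Finset.mem_univ i)
    have h2 := Int.self_le_toNat (m + M - μ i)
    have h3 : ((m + M - μ i).toNat : ℤ) ≤ ((∑ i, (m + M - μ i).toNat : ℕ) : ℤ) := by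
      exact_mod_cast h1
    linarith
  obtain ⟨S₁, hS₁, hS₁ρ⟩ := near_rho hρ n
  refine ⟨S₁ ∪ S₂ ∪ ⋃ i, s i '' S₂, (hS₁.union hS₂).union
    (Set.finite_iUnion fun i => hS₂.image _), fun τ hτ => ?_⟩
  have e0 : m = m + M - M := by ring
  rw [e0]
  apply hM
  intro i
  obtain ⟨σ', hσ'⟩ := hconj τ (s i)
  have h1 := hrel τ (s i) σ' hσ'
  have h2 : acl (F := F) ρ (s i) (C τ) - C τ = acP ρ τ (c σ') - c (s i) := h1.symm
  show acl (F := F) ρ (s i) (C τ) - C τ ∈ _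
  rw [h2]
  -- `σ' = s i * u` with `u` near to `1`
  have hu : ∀ x ∈ S₂, ((s i)⁻¹ * σ') x = x := by
    intro x hx
    have h3 : τ (σ' x) = s i (τ x) := AlgEquiv.congr_fun hσ' x
    rw [hτ x (Or.inl (Or.inr hx))] at h3
    have h4 : τ (s i x) = s i x := hτ _ (Or.inr (Set.mem_iUnion.2 ⟨i, x, hx, rfl⟩))
    rw [← h4] at h3
    have h5 : σ' x = s i x := τ.injective h3
    show (s i)⁻¹ (σ' x) = x
    rw [h5]
    show ((s i)⁻¹ * s i) x = x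
    rw [inv_mul_cancel]
    rfl
  have h3 := hc (s i) ((s i)⁻¹ * σ')
  rw [mul_inv_cancel_left] at h3
  have h4 := hS₂c _ hu
  have e1 : acP ρ τ (c σ') - c (s i) = (acP ρ τ (c (s i)) - c (s i)) +
      acP ρ τ (acP ρ (rH K F Ω (s i)) (c ((s i)⁻¹ * σ'))) := by
    rw [h3, map_add]
    abel
  rw [e1]
  refine (LtP p d _).add_mem ?_ (ac_mem ρ _ (ac_mem ρ _ h4))
  exact LtP_anti (hn i) (ac_sub_mem ρ (hS₁ρ τ fun x hx => hτ x (Or.inl (Or.inl hx))) (hμ i))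

/-- The extension of an invariant class is bounded. -/
theorem bdd_C [Algebra.IsAlgebraic K Ω] {C : (Ω ≃ₐ[K] Ω) → Fin d → ℚ_[p]} (hC : IsCoG (acP ρ) C)
    (hn : Near fun τ => C τ ∈ LtP p d 0) : ∃ m₀ : ℤ, ∀ τ, C τ ∈ LtP p d m₀ := by
  obtain ⟨S, hS, hSC⟩ := hn
  haveI := hS.to_subtype
  let R : Set (S → Ω) := Set.range fun (τ : Ω ≃ₐ[K] Ω) (x : S) => τ x
  have hR : R.Finite := by
    apply (Set.Finite.pi' (t := fun x : S => ((minpoly K (x : Ω)).rootSet Ω)) (fun x =>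
      Polynomial.rootSet_finite _ _)).subset
    rintro _ ⟨τ, rfl⟩ x
    rw [Polynomial.mem_rootSet]
    refine ⟨minpoly.ne_zero (Algebra.IsIntegral.isIntegral _), ?_⟩
    show Polynomial.aeval (τ (x : Ω)) (minpoly K (x : Ω)) = 0
    have h1 : Polynomial.aeval (τ (x : Ω)) (minpoly K (x : Ω)) =
        τ (Polynomial.aeval (x : Ω) (minpoly K (x : Ω))) :=
      Polynomial.aeval_algHom_apply (τ : Ω →ₐ[K] Ω) (x : Ω) (minpoly K (x : Ω))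
    rw [h1, minpoly.aeval, map_zero]
  haveI := hR.to_subtype
  haveI := Fintype.ofFinite R
  choose g hg using fun f : R => f.2
  choose μ hμ using fun f : R => exists_mem_LtP (C (g f))
  obtain ⟨m₀, hm₀, hm₀'⟩ : ∃ m₀ : ℤ, m₀ ≤ 0 ∧ ∀ f, m₀ ≤ μ f := by
    refine ⟨-∑ f, ((μ f).natAbs : ℤ), ?_, fun f => ?_⟩
    · have : 0 ≤ ∑ f, ((μ f).natAbs : ℤ) := Finset.sum_nonneg fun _ _ => by positivity
      omega
    · have h1 : ((μ f).natAbs : ℤ) ≤ ∑ f, ((μ f).natAbs : ℤ) :=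
        Finset.single_le_sum (f := fun f => ((μ f).natAbs : ℤ)) (fun _ _ => by positivity)
          (Finset.mem_univ f)
      omega
  refine ⟨m₀, fun τ => ?_⟩
  let f : R := ⟨fun x => τ x, τ, rfl⟩
  have h1 := hC (g f) ((g f)⁻¹ * τ)
  rw [mul_inv_cancel_left] at h1
  rw [h1]
  refine (LtP p d _).add_mem (LtP_anti (hm₀' f) (hμ f)) (ac_mem ρ _ (LtP_anti hm₀ (hSC _ ?_)))
  intro x hx
  have h2 : g f x = τ x := congrFun (hg f) ⟨x, hx⟩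
  show (g f)⁻¹ (τ x) = x
  rw [← h2]
  show ((g f)⁻¹ * g f) x = x
  rw [inv_mul_cancel]
  rfl

end gal

end Pool.Agent.Helper55.RL
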