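import Pool.Agent.Helper55.RG.Spec
import Pool.Agent.Helper55.RG.Spec3
import Pool.Agent.Helper55.RG.Spec7
import Pool.Agent.Helper55.RL.Ext

/-!
# The statements of the parts, for all primes `p`
-/

set_option autoImplicit false
set_option linter.all false

open Polynomial IsDedekindDomain NumberField FF
open scoped Classical

namespace Pool.Agent.Helper55.RL

open Pool.Agent.TH115.GD Pool.Agent.R939.EI Pool.Agent.Helper55.TT Pool.Agent.Helper55.UV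
open Pool.Agent.R939.HI Pool.Agent.W275.UB Pool.Agent.H927R2.RD Pool.Agent.R939.PP
open Pool.Agent.Helper55.RG

/-- The order of `z` is divisible by `p` at all places over the points `a` with `s(a) ≠ 0`. -/
def DivOff {κ N : Type} [Field κ] [Field N] [Algebra κ N] (p : ℕ) (t : N) (s : κ[X]) (z : N) :
    Prop :=
  ∀ (P : Place κ N) (a : κ), 0 < P.ord (t - algebraMap κ N a) → s.eval a ≠ 0 →
    (p : ℤ) ∣ P.ord z

/-- PWR: roots of order `p` of Laurent series (as SQR). -/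
def P_PWR : Prop := ∀ (p : ℕ) [Fact p.Prime] (Ω : Type) [Field Ω] [IsAlgClosed Ω] [CharZero Ω]
  (f : LaurentSeries Ω), f ≠ 0 → (p : ℤ) ∣ f.order → ∃ y : LaurentSeries Ω, y ^ p = f

/-- BZP: as BZ1. -/
def P_BZP : Prop := ∀ (p : ℕ) [Fact p.Prime] (κ N : Type) [Field κ] [IsAlgClosed κ] [CharZero κ]
  [Field N] [Algebra κ N] [IsFF κ N] (t : N), Transcendental κ t → ∀ s : κ[X], s ≠ 0 →
  ∃ M : ℕ, ∀ z : N, z ≠ 0 → DivOff p t s z → ∃ x₁ x₂ : N, x₁ ≠ 0 ∧ x₂ ≠ 0 ∧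
    x₁ ^ p * z ∈ LL (M • polar (k := κ) t) ∧ x₂ ^ p * z ∈ LL (M • polar (k := κ) t) ∧
    x₁ ^ (p - 1) * x₂ * z ∈ LL (M • polar (k := κ) t) ∧
    ∀ (P : Place κ N) (a : κ), 0 < P.ord (t - algebraMap κ N a) → s.eval a ≠ 0 →
      ¬ (0 < P.ord (x₁ ^ p * z) ∧ 0 < P.ord (x₂ ^ p * z))

/-- BRP: as BRI. -/
def P_BRP : Prop := ∀ (p : ℕ) [Fact p.Prime] (k' F : Type) [Field k'] [IsAlgClosed k']
  [CharZero k'] [Field F] [Algebra k'[X] F] [IsFractionRing k'[X] F] (g : k'[X][X]) (a : k'),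
  g.Monic → (g.map (evalRingHom a)).Separable → ∀ α : Sep F, eval₂ (em k' F (Sep F)) α g = 0 →
  ∀ [Algebra k' (IntermediateField.adjoin F {α})],
  (∀ c : k', algebraMap k' (IntermediateField.adjoin F {α}) c =
    algebraMap F (IntermediateField.adjoin F {α}) (algebraMap k'[X] F (C c))) →
  ∀ (y : Sep F) (z : IntermediateField.adjoin F {α}), z ≠ 0 → y ^ p = (z : Sep F) →
  (∀ (ι : Sep F →ₐ[F] Sep (Comp k'[X] F (pl a))) (σ : Sep F ≃ₐ[F] Sep F),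
    InI (Comp k'[X] F (pl a)) ι σ → σ y = y) →
  ∀ P : Place k' (IntermediateField.adjoin F {α}),
    0 < P.ord (algebraMap F (IntermediateField.adjoin F {α}) (algebraMap k'[X] F X) -
      algebraMap k' (IntermediateField.adjoin F {α}) a) → (p : ℤ) ∣ P.ord z

/-- DNP: as DSN. -/
def P_DNP : Prop := ∀ (p : ℕ) [Fact p.Prime] (k k' K F : Type) [Field k] [CharZero k] [Field k']
  [Algebra k k'] [Field K] [Algebra k[X] K] [Field F] [Algebra k'[X] F] [IsFractionRing k'[X] F]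
  [Algebra K F], IsTower k k' K F → ∀ (L : IntermediateField K (Sep F)) [FiniteDimensional K L],
  ∀ z z' : Sep F, z ∈ L → z' ∈ L → z ≠ 0 → z' ≠ 0 →
  ∀ v ∈ IntermediateField.adjoin F (L : Set (Sep F)), z = z' * v ^ p →
  ∃ (c : k') (w : Sep F), c ≠ 0 ∧ em k' F (Sep F) (C c) ∈ L ∧ w ∈ L ∧
    z = z' * em k' F (Sep F) (C c) * w ^ p

/-- KMP: as KUM. -/
def P_KMP : Prop := ∀ (p : ℕ) [Fact p.Prime] (K Ω : Type) [Field K] [CharZero K] [Field Ω]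
  [Algebra K Ω] [IsGalois K Ω] (L : IntermediateField K Ω) (χ : (Ω ≃ₐ[K] Ω) → Ω),
  (∀ ζ : Ω, ζ ^ p = 1 → ζ ∈ L) → (∀ σ, χ σ ^ p = 1) →
  (∀ σ ∈ L.fixingSubgroup, ∀ τ ∈ L.fixingSubgroup, χ (σ * τ) = χ σ * χ τ) →
  ∀ S : Set Ω, S.Finite → (∀ u ∈ L.fixingSubgroup, (∀ x ∈ S, u x = x) → χ u = 1) →
  ∃ y : Ω, y ≠ 0 ∧ y ^ p ∈ L ∧ ∀ σ ∈ L.fixingSubgroup, σ y = χ σ * y

/-- DLP: as DSL. -/
def P_DLP : Prop := ∀ (p : ℕ) [Fact p.Prime] (Γ : Type) [Group Γ] (d : ℕ)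
  (ρ : Γ →* GL (Fin d) ℤ_[p]) (N : Subgroup Γ), N.Normal →
  (∀ σ ∈ N, ∃ m : ℕ, ∀ i j, ‖((ρ (σ ^ p ^ m)).1 - 1) i j‖ ≤ (p : ℝ) ^ (-((1 : ℕ) : ℤ))) →
  ∀ C : Γ → Fin d → ℚ_[p], IsCoG (acP ρ) C → ∀ m₀ : ℤ, (∀ σ, C σ ∈ LtP p d m₀) →
  (∀ γ : Γ, ∃ δ : Γ, C δ = 0 ∧ δ⁻¹ * γ ∈ N) →
  (∀ m, m₀ ≤ m → ∀ χ : Γ → ZMod p, (∀ σ ∈ N, ∀ τ ∈ N, χ (σ * τ) = χ σ + χ τ) →
    (∀ σ ∈ N, C σ ∈ LtP p d (m + 1) → χ σ = 0) →
    (∀ σ ∈ N, ∀ g : Γ, C σ = 0 → χ (g * σ * g⁻¹) = 0) → ∀ σ ∈ N, χ σ = 0) →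
  ∀ σ, C σ = 0

/-- `f` is a `p`-th power modulo `π`. -/
def PwMod (p : ℕ) {k : Type} [Field k] (π f : k[X]) : Prop := ∃ z : k[X], π ∣ z ^ p - f

/-- The nonzero constant multiples of the monic polynomials, without multiple factors of order `p`
and with the prime divisors of `s`, which are prime to `π` and `p`-th powers modulo `π`, are `p`-th
powers. -/
def IndepP (p : ℕ) {k : Type} [Field k] (π s : k[X]) : Prop :=
  ∀ (u : k) (S : k[X]), u ≠ 0 → S.Monic → (∀ q : k[X], Irreducible q → ¬ q ^ p ∣ S) →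
    S ∣ s ^ (p - 1) → ¬ π ∣ S → PwMod p π (C u * S) → S = 1 ∧ ∃ v : k, v ^ p = u

/-- CHP: characters of order `p` of the Galois group of `K` which are not ramified outside of `s` and
trivial at the decomposition group at a root of `π` are trivial (cf. `char_one`). -/
def P_CHP : Prop := ∀ (p : ℕ) [Fact p.Prime] (k k' K F : Type) [Field k] [CharZero k] [Field k']
  [Algebra k k'] [Field K] [Algebra k[X] K] [Field F] [Algebra k'[X] F] [IsFractionRing k'[X] F]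
  [Algebra K F], IsTower k k' K F → ∀ (s π : k[X]),
  (∀ ζ : k', ζ ^ p = 1 → ζ ∈ Set.range (algebraMap k k')) →
  s ≠ 0 → Irreducible π → IndepP p π s →
  ∀ θ : k', aeval θ π = 0 → aeval θ s ≠ 0 → ∀ (ι : Sep F →ₐ[F] Sep (Comp k'[X] F (pl θ)))
  (χ : (Sep F ≃ₐ[K] Sep F) → Sep F), (∀ σ, χ σ ^ p = 1) → (∀ σ τ, χ (σ * τ) = χ σ * χ τ) →
  ∀ S : Set (Sep F), S.Finite → (∀ u, (∀ x ∈ S, u x = x) → χ u = 1) →
  (∀ v : HeightOneSpectrum k'[X], s.map (algebraMap k k') ∉ v.asIdeal →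
    ∀ (ι' : Sep F →ₐ[F] Sep (Comp k'[X] F v)) (σ : Sep F ≃ₐ[F] Sep F),
    InI (Comp k'[X] F v) ι' σ → χ (σ.restrictScalars K) = 1) →
  (∀ g, InD K (Comp k'[X] F (pl θ)) ι g → χ g = 1) → ∀ g, χ g = 1

/-- CP1: as CH1. -/
def P_CP1 : Prop := ∀ (p : ℕ) [Fact p.Prime] (k k' K F : Type) [Field k] [CharZero k] [Field k']
  [Algebra k k'] [Field K] [Algebra k[X] K] [Field F] [Algebra k'[X] F] [IsFractionRing k'[X] F]
  [Algebra K F], IsTower k k' K F → ∀ (k₁ : IntermediateField k k') [FiniteDimensional k k₁]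
  (s π : k[X]), (∀ ζ : k', ζ ^ p = 1 → ζ ∈ k₁) →
  s ≠ 0 → Irreducible (π.map (algebraMap k k₁)) →
  IndepP p (π.map (algebraMap k k₁)) (s.map (algebraMap k k₁)) →
  ∀ θ : k', aeval θ π = 0 → aeval θ s ≠ 0 → ∀ (ι : Sep F →ₐ[F] Sep (Comp k'[X] F (pl θ)))
  (Γ₁ : Set (Sep F ≃ₐ[K] Sep F)),
  (∀ τ, τ ∈ Γ₁ ↔ ∀ c ∈ k₁, τ (em k' F (Sep F) (C c)) = em k' F (Sep F) (C c)) →
  ∀ χ : (Sep F ≃ₐ[K] Sep F) → Sep F, (∀ σ, χ σ ^ p = 1) →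
  (∀ σ ∈ Γ₁, ∀ τ ∈ Γ₁, χ (σ * τ) = χ σ * χ τ) →
  ∀ S : Set (Sep F), S.Finite → (∀ u ∈ Γ₁, (∀ x ∈ S, u x = x) → χ u = 1) →
  (∀ v : HeightOneSpectrum k'[X], s.map (algebraMap k k') ∉ v.asIdeal →
    ∀ (ι' : Sep F →ₐ[F] Sep (Comp k'[X] F v)) (σ : Sep F ≃ₐ[F] Sep F),
    InI (Comp k'[X] F v) ι' σ → χ (σ.restrictScalars K) = 1) →
  (∀ g ∈ Γ₁, InD K (Comp k'[X] F (pl θ)) ι g → χ g = 1) → ∀ g ∈ Γ₁, χ g = 1

/-- TNP: as THN, with a clause on the roots of unity. -/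
def P_TNP : Prop := ∀ (p : ℕ) [Fact p.Prime] (k O ι J : Type) [Field k] [CharZero k] [CommRing O]
  [IsDomain O] [Algebra O k] [FaithfulSMul O k] [Fintype J] (ω : J → O) (j0 : J), ω j0 ≠ 0 →
  ∀ (m : ℕ) (e : Fin (m + 1) → ι), 1 ≤ m → Function.Injective e →
  ∃ (M : Type) (_ : Field M) (φ : k →+* M) (Θ : MvPolynomial (ι × J) O →+* M) (t : Fin m → M),
    Function.Injective Θ ∧ (∀ o : O, Θ (MvPolynomial.C o) = φ (algebraMap O k o)) ∧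
    Function.Injective t ∧
    (∀ l : Fin m, ∑ i : Fin (m + 1), (∑ j, Θ (MvPolynomial.X (e i, j)) * Θ (MvPolynomial.C (ω j))) *
      (t l) ^ (i : ℕ) = 0) ∧
    (∀ q : Equiv.Perm (Fin m), ∃ σ : M ≃+* M, (∀ x, σ (Θ x) = Θ x) ∧ ∀ l, σ (t l) = t (q l)) ∧
    (∀ ε : M, ε ^ p = 1 → ∃ e : k, φ e = ε) ∧
    ∀ S : k[X], S.Monic → (∀ q : k[X], Irreducible q → ¬ q ^ p ∣ S) → S ≠ 1 →
      ∀ l l' : Fin m, l ≠ l' →
      ¬ ∃ r : M, r ^ p = eval₂ φ (t l) S * eval₂ φ (t l') S ^ (p - 1)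

/-- KBP: as IKB. -/
def P_KBP : Prop := ∀ (p : ℕ) [Fact p.Prime] (k k₁ : Type) [Field k] [NumberField k] [Field k₁]
  [NumberField k₁] [Algebra k k₁] (J : Type) [Fintype J] (ω : Module.Basis J ℤ (𝓞 k)) (u : ℕ)
  (n : Fin u → ℕ) (l0 : Fin u), 2 ≤ n l0 → ∀ S : k₁[X], S.Monic →
  (∀ q : k₁[X], Irreducible q → ¬ q ^ p ∣ S) → S ≠ 1 →
  D0 {x : (Σ l : Fin u, Fin (n l + 1)) × J → ℤ |
    Irreducible ((Dp ω x l0).map (algebraMap k k₁)) ∧ ¬ (Dp ω x l0).map (algebraMap k k₁) ∣ S ∧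
    ∃ c : k₁, c ≠ 0 ∧ PwMod p ((Dp ω x l0).map (algebraMap k k₁)) (C c * S)}

/-- KCP: as IKC. -/
def P_KCP : Prop := ∀ (p : ℕ) [Fact p.Prime] (k k₁ : Type) [Field k] [NumberField k] [Field k₁]
  [NumberField k₁] [Algebra k k₁] (J : Type) [Fintype J] (ω : Module.Basis J ℤ (𝓞 k)) (u : ℕ)
  (n : Fin u → ℕ) (l0 : Fin u), 3 ≤ n l0 →
  D0 {x : (Σ l : Fin u, Fin (n l + 1)) × J → ℤ |
    Irreducible ((Dp ω x l0).map (algebraMap k k₁)) ∧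
    ∃ c : k₁, (¬ ∃ v : k₁, v ^ p = c) ∧ PwMod p ((Dp ω x l0).map (algebraMap k k₁)) (C c)}

/-- K1P: as IK1. -/
def P_K1P : Prop := ∀ (p : ℕ) [Fact p.Prime] (k k₁ : Type) [Field k] [NumberField k] [Field k₁]
  [NumberField k₁] [Algebra k k₁] (J : Type) [Fintype J] (ω : Module.Basis J ℤ (𝓞 k)) (u : ℕ)
  (n : Fin u → ℕ) (l0 : Fin u), 3 ≤ n l0 → ∀ s : k₁[X], s ≠ 0 →
  D0 {x : (Σ l : Fin u, Fin (n l + 1)) × J → ℤ |
    Irreducible ((Dp ω x l0).map (algebraMap k k₁)) ∧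
    ¬ IndepP p ((Dp ω x l0).map (algebraMap k k₁)) s}

/-- KPP: as KAP. -/
def P_KPP : Prop := ∀ (p : ℕ) [Fact p.Prime] (k₁ κ k' : Type) [Field k₁] [CharZero k₁] [Field κ]
  [Field k'] [Algebra k₁ κ] [Algebra k₁ k'] [Algebra κ k'] [IsScalarTower k₁ κ k']
  [IsSepClosure k₁ k'] [IsSepClosure κ k'] (M : Set k') (D s : k₁[X]),
  (∀ ζ : k', ζ ^ p = 1 → ζ ∈ Set.range (algebraMap k₁ k')) → M.Finite →
  (∀ σ : k' ≃ₐ[k₁] k', ∃ τ : k' ≃ₐ[κ] k', ∀ x ∈ M, τ x = σ x) →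
  (∀ θ : k', aeval θ D = 0 → θ ∈ M) → (∀ r : k', aeval r s = 0 → r ∈ M) →
  (∀ θ r w : k', aeval θ D = 0 → aeval r s = 0 → w ^ p = θ - r → w ∈ M) →
  s ≠ 0 → Irreducible D → IndepP p D s →
  Irreducible (D.map (algebraMap k₁ κ)) ∧
    IndepP p (D.map (algebraMap k₁ κ)) (s.map (algebraMap k₁ κ))

/-- SP2: as SPM, relative to `k₂ ∩ M`. -/
def P_SP2 : Prop := ∀ (k k' : Type) [Field k] [CharZero k] [Field k'] [Algebra k k']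
  [IsSepClosure k k'] (M k₂ : IntermediateField k k') [FiniteDimensional k M] [IsGalois k M]
  [FiniteDimensional k k₂] (σ : k' ≃ₐ[k] k'), (∀ x ∈ k₂ ⊓ M, σ x = x) →
  ∃ τ : k' ≃ₐ[k] k', (∀ x ∈ M, τ x = σ x) ∧ ∀ x ∈ k₂, τ x = x

/-- BDP: as BDS. -/
def P_BDP : Prop := ∀ (p : ℕ) [Fact p.Prime] (k k' : Type) [Field k] [CharZero k] [Field k']
  [Algebra k k'] [IsSepClosure k k'] (s : k[X]) (g : k[X][X]) (k₁ : IntermediateField k k')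
  [FiniteDimensional k k₁] (n : ℕ), s ≠ 0 → g.Monic →
  ∃ N : ℕ, 0 < N ∧ ∀ D : k[X], D ≠ 0 → D.natDegree ≤ n →
    ∃ M : IntermediateField k k', FiniteDimensional k M ∧ IsGalois k M ∧
      Module.finrank k M ∣ N ∧ k₁ ≤ M ∧ (∀ θ : k', aeval θ D = 0 → θ ∈ M) ∧
      (∀ r : k', aeval r s = 0 → r ∈ M) ∧
      (∀ θ b : k', aeval θ D = 0 → ev2 (algebraMap k k') θ b g = 0 → b ∈ M) ∧
      ∀ θ r w : k', aeval θ D = 0 → aeval r s = 0 → w ^ p = θ - r → w ∈ M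

end Pool.Agent.Helper55.RL
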