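import Pool.Agent.Helper55.RG.Ext1
import Pool.Agent.Helper55.RL.Spec

/-!
# Roots of unity among the constants
-/

set_option autoImplicit false
set_option linter.all false

open Polynomial IsDedekindDomain
open scoped Classical

namespace Pool.Agent.Helper55.RL

open Pool.Agent.TH115.GD Pool.Agent.R939.EI Pool.Agent.Helper55.TT Pool.Agent.Helper55.UV
open Pool.Agent.Helper55.RG

theorem em_inj {k' F : Type} [Field k'] [Field F] [Algebra k'[X] F] [IsFractionRing k'[X] F] :
    Function.Injective fun c : k' => em k' F (Sep F) (C c) := by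
  intro a b h
  have h1 : algebraMap F (Sep F) (algebraMap k'[X] F (C a)) =
    algebraMap F (Sep F) (algebraMap k'[X] F (C b)) := h
  exact C_injective (IsFractionRing.injective k'[X] F ((algebraMap F (Sep F)).injective h1))

/-- a primitive root of unity -/
theorem exists_prim (p : ℕ) [hp : Fact p.Prime] (k' : Type) [Field k'] [IsAlgClosed k']
    [CharZero k'] : ∃ e : k', IsPrimitiveRoot e p := by
  haveI : NeZero (p : k') := ⟨by exact_mod_cast hp.out.ne_zero⟩
  obtain ⟨m, hm⟩ := (IsSepClosed.hasEnoughRootsOfUnity k' p).prim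
  exact ⟨m, hm⟩

theorem prim_em {p : ℕ} [Fact p.Prime] {k' F : Type} [Field k'] [Field F] [Algebra k'[X] F]
    [IsFractionRing k'[X] F] {e : k'} (he : IsPrimitiveRoot e p) :
    IsPrimitiveRoot (em k' F (Sep F) (C e)) p := by
  have h := he.map_of_injective (f := (em k' F (Sep F)).comp C) (em_inj (k' := k') (F := F))
  exact h

theorem root_em {p : ℕ} [hp : Fact p.Prime] {k' F : Type} [Field k'] [IsAlgClosed k'] [CharZero k']
    [Field F] [Algebra k'[X] F] [IsFractionRing k'[X] F] {x : Sep F} (hx : x ^ p = 1) :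
    ∃ e : k', e ^ p = 1 ∧ x = em k' F (Sep F) (C e) := by
  obtain ⟨e, he⟩ := exists_prim p k'
  haveI : NeZero p := ⟨hp.out.ne_zero⟩
  obtain ⟨i, -, hi⟩ := (prim_em (F := F) he).eq_pow_of_pow_eq_one hx
  refine ⟨e ^ i, ?_, ?_⟩
  · rw [← pow_mul, mul_comm, pow_mul, he.pow_eq_one, one_pow]
  · rw [← hi, ← map_pow, ← C_pow]

/-- the quotient of two elements with the same `p`-th power -/
theorem root_quot {p : ℕ} [Fact p.Prime] {k' F : Type} [Field k'] [IsAlgClosed k'] [CharZero k']
    [Field F] [Algebra k'[X] F] [IsFractionRing k'[X] F] {x y : Sep F} (hy : y ≠ 0)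
    (h : x ^ p = y ^ p) : ∃ e : k', e ^ p = 1 ∧ x = em k' F (Sep F) (C e) * y := by
  obtain ⟨e, he, h1⟩ := root_em (p := p) (k' := k') (F := F) (x := x / y) (by
    rw [div_pow, h, div_self (pow_ne_zero _ hy)])
  refine ⟨e, he, ?_⟩
  rw [← h1, div_mul_cancel₀ _ hy]

end Pool.Agent.Helper55.RL
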