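import Mathlib
import Pool.Graph.R_seed8.TH115.GD.Defs

/-!
# Classes of Galois cohomology of `k'(t)` with values in `p`-adic representations: the definitions

`k` is a field of characteristic zero, `k'` an algebraic closure of `k`, `K = k(t)`, `F = k'(t)`; `Sep F`
is a separable closure of `F`, and `Comp k'[X] F v` is the completion of `F` at the maximal ideal `v` of
`k'[X]`. All the representations of the Galois group `Sep F ≃ₐ[K] Sep F` of `K` are given by homomorphisms
`ρ` to `GL_d(ℤ_p)`, and `V = ℚ_p ^ d`.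
-/

set_option autoImplicit false
set_option linter.all false

open Polynomial IsDedekindDomain NumberField

namespace Pool.Agent.Helper55.RL

open Pool.Agent.TH115.GD

/-- The action of `Γ` on `ℚ_p ^ d` given by a homomorphism `ρ : Γ → GL_d(ℤ_p)`. -/
noncomputable def actQ {p : ℕ} [Fact p.Prime] {Γ : Type} [Group Γ] {d : ℕ}
    (ρ : Γ →* GL (Fin d) ℤ_[p]) (σ : Γ) (v : Fin d → ℚ_[p]) : Fin d → ℚ_[p] :=
  ((ρ σ).1.map (algebraMap ℤ_[p] ℚ_[p])).mulVec v

section defs

variable {p : ℕ} [Fact p.Prime] {K F : Type} [Field K] [Field F] [Algebra K F]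

/-- `σ` is in the image of the Galois group of the completion `F_v` for the embedding `ι` of the separable
closures. (If `k'` is algebraically closed this is the inertia group at `v`.) -/
def InLoc (k' : Type) [Field k'] [Algebra k'[X] F] [IsFractionRing k'[X] F]
    (v : HeightOneSpectrum k'[X]) (ι : Sep F →ₐ[F] Sep (Comp k'[X] F v)) (σ : Sep F ≃ₐ[F] Sep F) :
    Prop :=
  ∃ τ : Sep (Comp k'[X] F v) ≃ₐ[Comp k'[X] F v] Sep (Comp k'[X] F v), ∀ x, τ (ι x) = ι (σ x)

/-- `ρ` is not ramified outside of the roots of `q` and infinity. -/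
def UnramOutside {k : Type} [Field k] (k' : Type) [Field k'] [Algebra k k'] [Algebra k'[X] F]
    [IsFractionRing k'[X] F] (q : k[X]) {d : ℕ} (ρ : (Sep F ≃ₐ[K] Sep F) →* GL (Fin d) ℤ_[p]) :
    Prop :=
  ∀ v : HeightOneSpectrum k'[X], q.map (algebraMap k k') ∉ v.asIdeal →
    ∀ (ι : Sep F →ₐ[F] Sep (Comp k'[X] F v)) (σ : Sep F ≃ₐ[F] Sep F), InLoc k' v ι σ →
      ρ (σ.restrictScalars K) = 1

/-- The inertia groups at the roots of `D` have no nonzero invariants in `ℚ_p ^ d`. -/
def NoInvAtRoots {k : Type} [Field k] (k' : Type) [Field k'] [Algebra k k'] [Algebra k'[X] F]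
    [IsFractionRing k'[X] F] (D : k[X]) {d : ℕ} (ρ : (Sep F ≃ₐ[K] Sep F) →* GL (Fin d) ℤ_[p]) :
    Prop :=
  ∀ θ : k', aeval θ D = 0 → ∀ (ι : Sep F →ₐ[F] Sep (Comp k'[X] F (pl θ))) (y : Fin d → ℚ_[p]),
    (∀ σ : Sep F ≃ₐ[F] Sep F, InLoc k' (pl θ) ι σ → actQ ρ (σ.restrictScalars K) y = y) → y = 0

/-- The restriction of `c` to the Galois group of the completion `F_v` is a coboundary. -/
def LocCobAt (k' : Type) [Field k'] [Algebra k'[X] F] [IsFractionRing k'[X] F] {d : ℕ}
    (ρ : (Sep F ≃ₐ[K] Sep F) →* GL (Fin d) ℤ_[p]) (c : (Sep F ≃ₐ[F] Sep F) → Fin d → ℚ_[p])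
    (v : HeightOneSpectrum k'[X]) : Prop :=
  ∃ (ι : Sep F →ₐ[F] Sep (Comp k'[X] F v)) (y : Fin d → ℚ_[p]),
    ∀ σ : Sep F ≃ₐ[F] Sep F, InLoc k' v ι σ → c σ = actQ ρ (σ.restrictScalars K) y - y

/-- `c` is locally trivial at the roots of `D`, and at the places outside of the roots of `q` and
infinity. -/
def LocTrivial {k : Type} [Field k] (k' : Type) [Field k'] [Algebra k k'] [Algebra k'[X] F]
    [IsFractionRing k'[X] F] (q D : k[X]) {d : ℕ} (ρ : (Sep F ≃ₐ[K] Sep F) →* GL (Fin d) ℤ_[p])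
    (c : (Sep F ≃ₐ[F] Sep F) → Fin d → ℚ_[p]) : Prop :=
  (∀ v : HeightOneSpectrum k'[X], q.map (algebraMap k k') ∉ v.asIdeal → LocCobAt k' ρ c v) ∧
  ∀ θ : k', aeval θ D = 0 → LocCobAt k' ρ c (pl θ)

/-- `c` is a coboundary. -/
def IsCob {d : ℕ} (ρ : (Sep F ≃ₐ[K] Sep F) →* GL (Fin d) ℤ_[p])
    (c : (Sep F ≃ₐ[F] Sep F) → Fin d → ℚ_[p]) : Prop :=
  ∃ y : Fin d → ℚ_[p], ∀ σ, c σ = actQ ρ (σ.restrictScalars K) y - y

/-- `c` is a continuous cocycle of the Galois group of `F` with values in `V = ℚ_p ^ d`, and its class in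
`H¹(F, V)` is fixed by the Galois group of `K`: for each `τ` in this group, `τ c - c` is a coboundary, where
`(τ c) (σ) = τ (c (τ⁻¹ σ τ))`. -/
structure IsFixedClass {d : ℕ} (ρ : (Sep F ≃ₐ[K] Sep F) →* GL (Fin d) ℤ_[p])
    (c : (Sep F ≃ₐ[F] Sep F) → Fin d → ℚ_[p]) : Prop where
  cont : Continuous c
  mul : ∀ σ τ, c (σ * τ) = c σ + actQ ρ (σ.restrictScalars K) (c τ)
  fixed : ∀ τ : Sep F ≃ₐ[K] Sep F, ∃ y : Fin d → ℚ_[p], ∀ σ σ' : Sep F ≃ₐ[F] Sep F,
    (∀ x, τ (σ' x) = σ (τ x)) → actQ ρ τ (c σ') - c σ = actQ ρ (σ.restrictScalars K) y - y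

/-- The image modulo `p` of the Galois group of `L` under `ρ` is a `p`-group: the order of each of its
elements is a power of `p`. -/
def IsProPOn (L : IntermediateField K (Sep F)) {d : ℕ}
    (ρ : (Sep F ≃ₐ[K] Sep F) →* GL (Fin d) ℤ_[p]) : Prop :=
  ∀ σ : Sep F ≃ₐ[K] Sep F, (∀ x ∈ L, σ x = x) →
    ∃ m : ℕ, ∀ i j, (p : ℤ_[p]) ∣ ((ρ (σ ^ p ^ m)).1 - 1) i j

end defs

/-- `VanishL p k' K F L P D`: for all continuous representations `ρ` of the Galois group of `K` in
`GL_d(ℤ_p)` (any `d`), such that the image modulo `p` of the Galois group of `L` is a `p`-group, which are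
not ramified outside of the roots of `P D` and infinity, and such that the inertia groups at the roots of
`D` have no nonzero invariants in `V = ℚ_p ^ d`, there are no nonzero classes in `H¹(F, V)` which are
fixed by the Galois group of `K` and locally trivial at the roots of `D` and at the places which are not
roots of `P D` or infinite. -/
def VanishL (p : ℕ) [Fact p.Prime] (k' K F : Type) {k : Type} [Field k] [Field k'] [Algebra k k']
    [Field K] [Field F] [Algebra k'[X] F] [IsFractionRing k'[X] F] [Algebra K F]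
    (L : IntermediateField K (Sep F)) (P D : k[X]) : Prop :=
  ∀ (d : ℕ) (ρ : (Sep F ≃ₐ[K] Sep F) →* GL (Fin d) ℤ_[p]), Continuous ρ → IsProPOn L ρ →
    UnramOutside k' (P * D) ρ → NoInvAtRoots k' D ρ →
    ∀ c : (Sep F ≃ₐ[F] Sep F) → Fin d → ℚ_[p], IsFixedClass ρ c → LocTrivial k' (P * D) D ρ c →
      IsCob ρ c

/-- `VanishExt p k' K F L P N D`: there is a Galois extension `M` of `k` in `k'`, whose degree divides `N`,
such that for all finite extensions `k₂` of `k` in `k'` for which the elements of `k₂ ∩ M` are constants in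
`L` (for example with `k₂ ∩ M = k`), and all representations of the Galois group of `K₂ = k₂(t)` in
`GL_d(ℤ_p)` (any `d`) as in `VanishL`, the fixed classes vanish. -/
def VanishExt (p : ℕ) [Fact p.Prime] (k' K F : Type) {k : Type} [Field k] [Field k'] [Algebra k k']
    [Field K] [Field F] [Algebra k'[X] F] [IsFractionRing k'[X] F] [Algebra K F]
    (L : IntermediateField K (Sep F)) (P : k[X]) (N : ℕ) (D : k[X]) : Prop :=
  ∃ M : IntermediateField k k', IsGalois k M ∧ FiniteDimensional k M ∧ Module.finrank k M ∣ N ∧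
    ∀ k₂ : IntermediateField k k', FiniteDimensional k k₂ →
    (∀ c ∈ k₂ ⊓ M, algebraMap F (Sep F) (algebraMap k'[X] F (C c)) ∈ L) →
    ∀ (K₂ : Type) [Field K₂] [Algebra k₂[X] K₂] [Algebra K₂ F], IsTower k₂ k' K₂ F →
      VanishL p k' K₂ F (IntermediateField.adjoin K₂ (L : Set (Sep F))) (P.map (algebraMap k k₂))
        (D.map (algebraMap k k₂))

end Pool.Agent.Helper55.RL
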