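import Pool.Agent.Helper55.RG.Rig3
import Pool.Agent.Helper55.RL.Spec

/-!
# Rigidity of functions with divisors divisible by `p`
-/

set_option autoImplicit false
set_option linter.all false

open FF Polynomial IntermediateField

namespace Pool.Agent.Helper55.RL

open Pool.Agent.Helper55.RG

/-- RIG for all primes `p`. -/
def P_RIG : Prop := ∀ (p : ℕ) [Fact p.Prime] (κ Ω N₀ : Type) [Field κ] [IsAlgClosed κ] [CharZero κ]
  [Field Ω] [IsAlgClosed Ω] [Algebra κ Ω] [Field N₀] [Algebra κ N₀] [IsFF κ N₀] (t : N₀) (a₀ : κ)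
  (j : N₀ →+* LaurentSeries κ), Transcendental κ t →
  (∀ c : κ, j (algebraMap κ N₀ c) = HahnSeries.C c) →
  j t = HahnSeries.C a₀ + HahnSeries.single (1 : ℤ) (1 : κ) →
  ∀ (ψ : N₀ →+* IntermediateField.adjoin Ω (Set.range fun x : N₀ => lmap κ Ω (j x))),
  (∀ x : N₀, (ψ x : LaurentSeries Ω) = lmap κ Ω (j x)) →
  IsFF Ω (IntermediateField.adjoin Ω (Set.range fun x : N₀ => lmap κ Ω (j x))) ∧
  ∀ z : IntermediateField.adjoin Ω (Set.range fun x : N₀ => lmap κ Ω (j x)), z ≠ 0 →
    (∀ P : Place Ω (IntermediateField.adjoin Ω (Set.range fun x : N₀ => lmap κ Ω (j x))),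
      0 ≤ P.ord (ψ t) →
      (∀ a : κ, ¬ 0 < P.ord (ψ t - algebraMap Ω _ (algebraMap κ Ω a))) → (p : ℤ) ∣ P.ord z) →
    ∃ (w : IntermediateField.adjoin Ω (Set.range fun x : N₀ => lmap κ Ω (j x))) (z₀ : N₀),
      w ≠ 0 ∧ z * w ^ p = ψ z₀

section nab

variable {p : ℕ} [hpf : Fact p.Prime] {Ω N : Type} [Field Ω] [CharZero Ω] [Field N] [Algebra Ω N]
  [IsFF Ω N]

/-- the integral part of the divisor of `z` divided by `p`, plus multiples of the poles of `t` -/
noncomputable def hdp (p : ℕ) (Ω : Type) {N : Type} [Field Ω] [CharZero Ω] [Field N] [Algebra Ω N]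
    [IsFF Ω N] (z t : N) (n : ℕ) : Place Ω N →₀ ℤ :=
  (divisor Ω z).mapRange (fun m => m / (p : ℤ)) (by norm_num) + n • polar (k := Ω) t

theorem hdp_apply (z t : N) (n : ℕ) (P : Place Ω N) :
    hdp p Ω z t n P = P.ord z / (p : ℤ) + n * max (-P.ord t) 0 := by
  simp [hdp, divisor_apply, polar_apply]

theorem log_der {D : Derivation ℤ N N} {b w : N} (hb : b ≠ 0) (hw : w ≠ 0) {p : ℕ} (hp : 0 < p) :
    D (b ^ p * w) / (b ^ p * w) = D w / w + p * (D b / b) := by
  obtain ⟨q, rfl⟩ : ∃ q, p = q + 1 := ⟨p - 1, by omega⟩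
  rw [Derivation.leibniz, Derivation.leibniz_pow, smul_eq_mul, smul_eq_mul, smul_eq_mul,
    nsmul_eq_mul, Nat.add_sub_cancel, pow_succ]
  have h1 : b ^ q ≠ 0 := pow_ne_zero _ hb
  field_simp

theorem nabla_p {z t : N} (hz : z ≠ 0) (D : Derivation ℤ N N) (cst : Place Ω N → Prop)
    (h1 : ∀ P, cst P → ∀ x, D x ≠ 0 → P.ord x ≤ P.ord (D x))
    (h2 : ∀ (P : Place Ω N) x, P.Reg x → P.Reg (D x))
    (h3 : ∀ P, ¬ cst P → (p : ℤ) ∣ P.ord z ∧ 0 ≤ P.ord t) (n : ℕ) {x : N}
    (hx : x ∈ LL (hdp p Ω z t n)) :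
    D x + D z / (p * z) * x ∈ LL (hdp p Ω z t n) := by
  haveI : CharZero N := charZero_of_injective_algebraMap (algebraMap Ω N).injective
  have hp0 : (p : N) ≠ 0 := by exact_mod_cast hpf.out.ne_zero
  by_cases hx0 : x = 0
  · rw [hx0, map_zero, mul_zero, add_zero]
    exact zero_mem _
  rw [mem_LL] at hx ⊢
  have hx' := hx.resolve_left hx0
  by_cases hr : D x + D z / (p * z) * x = 0
  · exact Or.inl hr
  right
  intro P
  have h20 : P.ord (p : N) = 0 := by
    have h := P.ord_const (c := (p : Ω)) (by exact_mod_cast hpf.out.ne_zero)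
    rwa [map_natCast] at h
  by_cases hP : cst P
  · refine le_trans (hx' P) ?_
    have h5 : P.Reg ((D x + D z / (p * z) * x) / x) := by
      have h6 : (D x + D z / (p * z) * x) / x = D x / x + D z / (p * z) := by
        field_simp
      rw [h6]
      refine P.reg_add (reg_div hx0 (h1 P hP x)) (reg_div (mul_ne_zero hp0 hz) fun h => ?_)
      rw [P.ord_mul hp0 hz, h20, zero_add]
      exact h1 P hP z h
    have h6 := (P.reg_iff (div_ne_zero hr hx0)).1 h5
    rw [P.ord_div hr hx0] at h6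
    omega
  · obtain ⟨⟨m, hm⟩, ht⟩ := h3 P hP
    obtain ⟨τ, hτ0, hτ⟩ := P.surj
    set b := τ ^ m with hb
    have hb0 : b ≠ 0 := zpow_ne_zero _ hτ0
    have hbo : P.ord b = m := by rw [hb, P.ord_zpow, hτ, mul_one]
    set v := b * x with hv
    set w := z / b ^ p with hw
    have hw0 : w ≠ 0 := div_ne_zero hz (pow_ne_zero _ hb0)
    have hwo : P.ord w = 0 := by
      rw [hw, P.ord_div hz (pow_ne_zero _ hb0), P.ord_pow, hbo, hm]
      ring
    have hAP : hdp p Ω z t n P = m := by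
      rw [hdp_apply, hm, max_eq_right (by omega), mul_zero, add_zero]
      exact Int.mul_ediv_cancel_left _ (by exact_mod_cast hpf.out.ne_zero)
    have hvR : P.Reg v := by
      right
      rw [hv, P.ord_mul hb0 hx0, hbo]
      have := hx' P
      rw [hAP] at this
      omega
    have hze : z = b ^ p * w := by rw [hw]; field_simp
    have key : b * (D x + D z / (p * z) * x) = D v + D w / w / p * v := by
      have e1 : D v = b * D x + x * D b := by
        rw [hv, Derivation.leibniz, smul_eq_mul, smul_eq_mul]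
      have e2 : D z / (p * z) = (D w / w + p * (D b / b)) / p := by
        rw [← log_der hb0 hw0 hpf.out.pos, ← hze, div_div, mul_comm]
      rw [e1, e2, hv]
      field_simp
      ring
    have hR : P.Reg (b * (D x + D z / (p * z) * x)) := by
      rw [key]
      have h2w : P.Reg (D w) := h2 P w (Or.inr hwo.ge)
      refine P.reg_add (h2 P v hvR) (P.reg_mul (reg_div hp0 fun h => ?_) hvR)
      rw [h20]
      have h7 : P.Reg (D w / w) := reg_div hw0 fun h8 => by
        rw [hwo]
        exact (P.reg_iff h8).1 h2w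
      exact (P.reg_iff h).1 h7
    have h8 := (P.reg_iff (mul_ne_zero hb0 hr)).1 hR
    rw [P.ord_mul hb0 hr, hbo] at h8
    rw [hAP]
    omega

/-- the space is not zero, for large `n` -/
theorem exists_ne_p (z : N) {t : N} (ht : Transcendental Ω t) :
    ∃ n : ℕ, LL (hdp p Ω z t n) ≠ ⊥ := by
  obtain ⟨γ, -, hγ, -⟩ := riemann (k := Ω) (K := N)
  have h1 := ddeg_polar_pos (k := Ω) ht
  set d0 := ddeg ((divisor Ω z).mapRange (fun m => m / (p : ℤ)) (by norm_num)) with hd0
  refine ⟨(γ + 1 - d0).toNat, fun h => ?_⟩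
  set n := (γ + 1 - d0).toNat with hn
  have h2 := hγ (hdp p Ω z t n)
  have h3 : ddeg (hdp p Ω z t n) = d0 + n * ddeg (polar (k := Ω) t) := by
    rw [hdp, ddeg_add, ddeg_nsmul]
  have h4 : ell (hdp p Ω z t n) = 0 := by
    unfold ell
    rw [h, finrank_bot]
    rfl
  have h5 := Int.self_le_toNat (γ + 1 - d0)
  have h6 : (n : ℤ) * 1 ≤ n * ddeg (polar (k := Ω) t) := by
    apply mul_le_mul_of_nonneg_left h1
    positivity
  rw [h4, h3] at h2
  omega

end nab

theorem pow_rule {R : Type} [CommRing R] (d : R → R) (hd : ∀ x y, d (x * y) = x * d y + y * d x)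
    (y : R) (q : ℕ) : d (y ^ (q + 1)) = (q + 1 : R) * (y ^ q * d y) := by
  induction q with
  | zero => simp
  | succ q ih =>
    rw [pow_succ, hd, ih]
    push_cast
    ring

theorem quot_rule {R : Type} [Field R] {p a y d : R} (hp : p ≠ 0) (ha : a ≠ 0) (hy : y ≠ 0) :
    p * (a * d) / (p * (a * y)) = d / y := by
  field_simp

theorem rig_p (hDER : S_DER) (hLEI : S_LEI) (hEST : S_EST) (hREC : S_REC) (hCST : S_CST)
    (hPWR : P_PWR) (hPRI : S_PRI) : P_RIG := by
  intro p hpf κ Ω N₀ _ _ _ _ _ _ _ _ _ t a₀ j ht hj hjt ψ hψ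
  haveI : CharZero Ω := charZero_of_injective_algebraMap (algebraMap κ Ω).injective
  obtain ⟨α, g, A, B, s, hgen, hgm, hgt, hs, hAB⟩ := hPRI κ N₀ t ht
  set θ : N₀ →+* LaurentSeries Ω := (lmap κ Ω).comp j with hθdef
  have hθ : ∀ c : κ, θ (algebraMap κ N₀ c) = algebraMap Ω (LaurentSeries Ω) (algebraMap κ Ω c) := by
    intro c
    rw [algMap_eq, hθdef, RingHom.comp_apply, hj, lmap_C]
  have hθt : θ t = HahnSeries.C (algebraMap κ Ω a₀) + HahnSeries.single (1 : ℤ) (1 : Ω) := by
    rw [hθdef, RingHom.comp_apply, hjt, map_add, lmap_C, lmap_single, map_one]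
  have h0 : Transcendental Ω (θ t) := by
    rw [hθt]
    exact trans_ls _
  have hIs : IsFF Ω (EF Ω θ) := isFF_EF hθ h0 hgen hgm hgt
  refine ⟨hIs, ?_⟩
  have hψe : ψ = psi Ω θ := by
    ext1 x
    ext1
    rw [hψ]
    rfl
  subst hψe
  -- the base place
  set E := EF Ω θ with hE
  have htr : Transcendental Ω (psi Ω θ t) := trans_psi h0
  have hcoeE : ∀ c : Ω, ((algebraMap Ω E c : E) : LaurentSeries Ω) = HahnSeries.C c := by
    intro c
    rw [← algMap_eq]; rfl
  have hsub : ((psi Ω θ t - algebraMap Ω E (algebraMap κ Ω a₀) : E) : LaurentSeries Ω) =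
      HahnSeries.single (1 : ℤ) (1 : Ω) := by
    rw [AddSubgroupClass.coe_sub, hcoeE, psi_coe, hθt]
    ring
  have main : ∀ z : E, z ≠ 0 → (p : ℤ) ∣ (z : LaurentSeries Ω).order →
      (∀ P : Place Ω E, 0 ≤ P.ord (psi Ω θ t) →
        (∀ a : κ, ¬ 0 < P.ord (psi Ω θ t - algebraMap Ω _ (algebraMap κ Ω a))) → (p : ℤ) ∣ P.ord z) →
      ∃ (w : E) (z₀ : N₀), w ≠ 0 ∧ z * w ^ p = psi Ω θ z₀ := by
    intro z hz hev hzP
    have hz' : (z : LaurentSeries Ω) ≠ 0 := by
      intro h
      apply hz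
      ext1
      rw [h]
      rfl
    obtain ⟨y, hy⟩ := hPWR p Ω (z : LaurentSeries Ω) hz' hev
    have hy0 : y ≠ 0 := by
      rintro rfl
      rw [zero_pow hpf.out.ne_zero] at hy
      exact hz' hy.symm
    obtain ⟨n, hn⟩ := exists_ne_p (p := p) (Ω := Ω) z htr
    set W := LL (hdp p Ω z (psi Ω θ t) n) with hW
    obtain ⟨x₀, hx₀, hx₀0⟩ := Submodule.exists_mem_ne_zero_of_ne_bot hn
    obtain ⟨f₀, hf₀, hf₀W⟩ := hREC κ Ω (fun c hc => by
        by_contra hcon
        obtain ⟨δ, hδ⟩ := hDER κ Ω c hcon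
        exact hδ (hc δ)) (yW E W y) (yW_fin E W inferInstance y) (by
        intro hbot
        have h1 : y * (x₀ : LaurentSeries Ω) ∈ yW E W y := ⟨x₀, hx₀, rfl⟩
        rw [hbot, Submodule.mem_bot] at h1
        rcases mul_eq_zero.1 h1 with h2 | h2
        · exact hy0 h2
        · apply hx₀0
          ext1
          rw [h2]
          rfl) (by
        rintro δ f ⟨x, hx, rfl⟩
        obtain ⟨⟨d₁, hd₁⟩, -⟩ := hLEI Ω (δ.restrictScalars ℤ)
        obtain ⟨d₀, hd₀⟩ := mkD (M := LaurentSeries Ω) (fun x => d₁ x) (fun x y => map_add d₁ x y)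
          (fun x y => by
            rw [Derivation.leibniz, smul_eq_mul, smul_eq_mul])
        have hd₀' : ∀ (f : LaurentSeries Ω) (n : ℤ), (d₀ f).coeff n = δ (f.coeff n) := by
          intro f n
          rw [hd₀]
          exact hd₁ f n
        have hdm : ∀ x y : LaurentSeries Ω, d₀ (x * y) = x * d₀ y + y * d₀ x := by
          intro x y
          rw [hd₀, hd₀, hd₀, Derivation.leibniz, smul_eq_mul, smul_eq_mul]
        have hk : ∀ x : N₀, d₀ (θ x) = 0 := by
          intro x
          ext n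
          rw [hd₀', hθdef, RingHom.comp_apply, lmap_coeff, δ.map_algebraMap]
          rfl
        have hc : ∀ c : Ω, d₀ (algebraMap Ω (LaurentSeries Ω) c) =
            algebraMap Ω (LaurentSeries Ω) (δ c) := by
          intro c
          rw [algMap_eq, algMap_eq]
          ext n
          rw [hd₀']
          show δ ((HahnSeries.single (0 : ℤ) c).coeff n) = (HahnSeries.single (0 : ℤ) (δ c)).coeff n
          rw [HahnSeries.coeff_single, HahnSeries.coeff_single]
          split_ifs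
          · rfl
          · exact map_zero δ
        obtain ⟨D, hD1, hD2, hD3⟩ := exists_D (κ := κ) (Ω := Ω) (θ := θ) (δ := δ) (d₀ := d₀) hk hc
        have hest := hEST κ Ω E (psi Ω θ t) (psi Ω θ α) htr (adjoin_top hθ hgen) g A B s hs hgm
          hAB (by
            unfold ev2 at hgt ⊢
            have h2 : (eval₂RingHom ((algebraMap Ω E).comp (algebraMap κ Ω)) (psi Ω θ t)) =
                (psi Ω θ).comp (eval₂RingHom (algebraMap κ N₀) t) := by
              apply Polynomial.ringHom_ext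
              · intro c
                simp only [RingHom.comp_apply, coe_eval₂RingHom, eval₂_C]
                rw [psi_const hθ]
              · simp only [RingHom.comp_apply, coe_eval₂RingHom, eval₂_X]
            rw [h2, ← hom_eval₂, hgt, map_zero]) δ D (hD1 t) (hD1 α) hD2
        have hnab := nabla_p (p := p) (t := psi Ω θ t) hz D
          (fun P => P.ord (psi Ω θ t) < 0 ∨
            ∃ a : κ, 0 < P.ord (psi Ω θ t - algebraMap Ω E (algebraMap κ Ω a)))
          (fun P hP => (hest P).1 hP) (fun P => (hest P).2) (by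
            intro P hP
            push Not at hP
            exact ⟨hzP P hP.1 fun a ha => absurd ha (not_lt.2 (hP.2 a)), hP.1⟩) n hx
        refine ⟨d₀ (y * (x : LaurentSeries Ω)), ⟨_, hnab, ?_⟩, hd₀' _⟩
        have hpL : (p : LaurentSeries Ω) ≠ 0 := by
          have h := (algebraMap Ω (LaurentSeries Ω)).injective.ne
            (a₁ := (p : Ω)) (a₂ := 0) (by exact_mod_cast hpf.out.ne_zero)
          rwa [map_natCast, map_zero] at h
        have e1 : ((D z : E) : LaurentSeries Ω) / (p * (z : LaurentSeries Ω)) = d₀ y / y := by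
          obtain ⟨q, hq⟩ : ∃ q, p = q + 1 := ⟨p - 1, by have := hpf.out.pos; omega⟩
          have h0 := pow_rule (fun x => d₀ x) hdm y q
          rw [hD3, ← hy, hq, h0, ← hq]
          have h1 : y ^ p = y ^ q * y := by
            rw [hq, pow_succ]
          have h2 : y ^ q ≠ 0 := pow_ne_zero _ hy0
          rw [h1]
          have h3 : (q + 1 : LaurentSeries Ω) = p := by rw [hq]; push_cast; rfl
          rw [h3]
          exact quot_rule hpL h2 hy0
        rw [hdm, AddMemClass.coe_add, MulMemClass.coe_mul, hD3 x]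
        have h2E : ((p : E) : LaurentSeries Ω) = p := map_natCast E.val p
        have e2 : ((D z / (p * z) : E) : LaurentSeries Ω) =
            ((D z : E) : LaurentSeries Ω) / (p * (z : LaurentSeries Ω)) := by
          rw [← h2E]
          rfl
        rw [e2, e1]
        field_simp)
    obtain ⟨x, hx, hxe⟩ := hf₀W
    have hf₀' : lmap κ Ω f₀ ≠ 0 := (map_ne_zero_iff _ lmap_inj).2 hf₀
    have hx0 : x ≠ 0 := by
      rintro rfl
      apply hf₀'
      rw [hxe]
      simp
    have hsq : lmap κ Ω (f₀ ^ p) = ((z * x ^ p : E) : LaurentSeries Ω) := by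
      rw [map_pow, hxe, mul_pow, hy]
      simp
    -- `f₀ ^ p` is in `N₀`
    have hS : (lmap κ Ω '' (j.fieldRange : Set (LaurentSeries κ))) =
        Set.range fun x : N₀ => θ x := by
      ext f
      constructor
      · rintro ⟨_, ⟨x, rfl⟩, rfl⟩
        exact ⟨x, rfl⟩
      · rintro ⟨x, rfl⟩
        exact ⟨j x, ⟨x, rfl⟩, rfl⟩
    have hmulS : ∀ x ∈ (Set.range fun x : N₀ => θ x), ∀ y ∈ (Set.range fun x : N₀ => θ x),
        x * y ∈ (Set.range fun x : N₀ => θ x) := by
      rintro _ ⟨x, rfl⟩ _ ⟨y, rfl⟩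
      exact ⟨x * y, map_mul _ _ _⟩
    have hone : (1 : LaurentSeries Ω) ∈ (Set.range fun x : N₀ => θ x) := ⟨1, map_one _⟩
    obtain ⟨r, hr, q, hq, hrq⟩ := (IntermediateField.mem_adjoin_iff_div).1 (z * x ^ p : E).2
    have hzx : ((z * x ^ p : E) : LaurentSeries Ω) ≠ 0 := by
      rw [← hsq, map_pow]
      exact pow_ne_zero _ hf₀'
    have hq0 : q ≠ 0 := by
      rintro rfl
      rw [div_zero] at hrq
      exact hzx hrq
    have hmem := hCST κ Ω j.fieldRange (fun c => ⟨algebraMap κ N₀ c, hj c⟩) r q (by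
        rw [hS]; exact adjoin_span hmulS hone hr) (by
        rw [hS]; exact adjoin_span hmulS hone hq) hq0 (f₀ ^ p) (by
        rw [hsq, hrq, div_mul_cancel₀ _ hq0])
    obtain ⟨z₀, hz₀⟩ := hmem
    refine ⟨x, z₀, hx0, ?_⟩
    ext1
    rw [← hsq, ← hz₀]
    rfl
  intro z hz hzP
  have hu0 : psi Ω θ t - algebraMap Ω E (algebraMap κ Ω a₀) ≠ 0 := by
    intro h
    rw [h] at hsub
    exact HahnSeries.single_ne_zero one_ne_zero hsub.symm
  have hz' : (z : LaurentSeries Ω) ≠ 0 := by
    intro h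
    apply hz
    ext1
    rw [h]
    rfl
  have hψu : psi Ω θ (t - algebraMap κ N₀ a₀) =
      psi Ω θ t - algebraMap Ω E (algebraMap κ Ω a₀) := by
    rw [map_sub, psi_const hθ]
  have hpz : (p : ℤ) ≠ 0 := by exact_mod_cast hpf.out.ne_zero
  obtain ⟨k, hk⟩ : ∃ k : ℕ, (p : ℤ) ∣ (z : LaurentSeries Ω).order + k := by
    refine ⟨((-(z : LaurentSeries Ω).order) % (p : ℤ)).toNat, ?_⟩
    rw [Int.toNat_of_nonneg (Int.emod_nonneg _ hpz)]
    have h1 := Int.emod_add_mul_ediv (-(z : LaurentSeries Ω).order) (p : ℤ)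
    exact ⟨-(-(z : LaurentSeries Ω).order / (p : ℤ)), by linarith⟩
  obtain ⟨w, z₀, hw, he⟩ := main (z * (psi Ω θ t - algebraMap Ω E (algebraMap κ Ω a₀)) ^ k)
    (mul_ne_zero hz (pow_ne_zero _ hu0)) (by
      rw [MulMemClass.coe_mul, SubmonoidClass.coe_pow, hsub]
      have h1 := (lsP Ω).ord_mul hz' (pow_ne_zero k
        (HahnSeries.single_ne_zero (a := (1 : ℤ)) (one_ne_zero (α := Ω))))
      rw [(lsP Ω).ord_pow, lsP_ord, lsP_ord, lsP_ord, HahnSeries.order_single one_ne_zero,
        mul_one] at h1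
      rw [h1]
      exact hk) (by
      intro P hP1 hP2
      rw [P.ord_mul hz (pow_ne_zero _ hu0), P.ord_pow]
      have h1 : P.ord (psi Ω θ t - algebraMap Ω E (algebraMap κ Ω a₀)) = 0 := by
        have h2 := hP2 a₀
        have h3 : P.Reg (psi Ω θ t - algebraMap Ω E (algebraMap κ Ω a₀)) := by
          rw [sub_eq_add_neg]
          exact P.reg_add (Or.inr hP1) (P.reg_neg (P.reg_const _))
        have h4 := (P.reg_iff hu0).1 h3
        omega
      rw [h1, mul_zero, add_zero]
      exact hzP P hP1 hP2)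
  refine ⟨w, z₀ / (t - algebraMap κ N₀ a₀) ^ k, hw, ?_⟩
  rw [map_div₀, map_pow, hψu, ← he]
  field_simp

end Pool.Agent.Helper55.RL
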