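import Pool.Agent.Helper55.RL.Root
import Pool.Agent.Helper55.RL.Fin

/-!
# Finiteness of the cyclic extensions of degree `p`, uniformly for all extensions of the field of
constants
-/

set_option autoImplicit false
set_option linter.all false

open Polynomial IsDedekindDomain
open scoped Classical

namespace Pool.Agent.Helper55.RL

open Pool.Agent.TH115.GD Pool.Agent.R939.EI Pool.Agent.Helper55.TT Pool.Agent.Helper55.UV
open Pool.Agent.Helper55.RG

theorem fin_rule {R : Type} [CommRing R] (e e' Y γ w τY τw : R) (q : ℕ) (he : e ^ (q + 1) = 1) :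
    (e * (Y * γ * w)) ^ q * (e * (τY * (e' * γ) * τw)) =
      Y ^ q * τY * γ ^ (q + 1) * w ^ q * τw * e' := by
  have : (e * (Y * γ * w)) ^ q * (e * (τY * (e' * γ) * τw)) =
      e ^ (q + 1) * (Y ^ q * τY * γ ^ (q + 1) * w ^ q * τw * e') := by ring
  rw [this, he, one_mul]

/-- HFP: finiteness of the cyclic extensions of degree `p` which are not ramified outside of `s`, up
to constants, uniformly for all extensions of the field of constants. -/
def P_HFP : Prop := ∀ (p : ℕ) [Fact p.Prime] (k k' K F : Type) [Field k] [CharZero k] [Field k'] [Algebra k k'] [Field K]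
  [Algebra k[X] K] [Field F] [Algebra k'[X] F] [IsFractionRing k'[X] F] [Algebra K F],
  IsTower k k' K F → ∀ (L₀ : IntermediateField K (Sep F)) [FiniteDimensional K L₀],
  (∀ e : k', e ^ p = 1 → em k' F (Sep F) (C e) ∈ L₀) → ∀ (P : k[X]), P ≠ 0 → ∃ (s : k[X]) (L L2 : IntermediateField K (Sep F)), s ≠ 0 ∧ P ∣ s ∧ L₀ ≤ L ∧ L ≤ L2 ∧
    FiniteDimensional K L ∧ Normal K L ∧ FiniteDimensional K L2 ∧ Normal K L2 ∧
    (∀ v : HeightOneSpectrum k'[X], s.map (algebraMap k k') ∉ v.asIdeal →
      ∀ (ι : Sep F →ₐ[F] Sep (Comp k'[X] F v)) (σ : Sep F ≃ₐ[F] Sep F),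
      InI (Comp k'[X] F v) ι σ → ∀ x ∈ L, σ x = x) ∧
    ∀ (k₂ : IntermediateField k k') [FiniteDimensional k k₂] (K₂ : Type) [Field K₂]
      [Algebra k₂[X] K₂] [Algebra K₂ F], IsTower k₂ k' K₂ F →
      ∀ y : Sep F, y ≠ 0 → y ^ p ∈ IntermediateField.adjoin K₂ (L : Set (Sep F)) →
      (∀ v : HeightOneSpectrum k'[X], s.map (algebraMap k k') ∉ v.asIdeal →
        ∀ (ι : Sep F →ₐ[F] Sep (Comp k'[X] F v)) (σ : Sep F ≃ₐ[F] Sep F),
        InI (Comp k'[X] F v) ι σ → σ y = y) →
      ∀ τ : Sep F ≃ₐ[K₂] Sep F, (∀ c : k', em k' F (Sep F) (C c) ∈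
        IntermediateField.adjoin K₂ (L : Set (Sep F)) →
        τ (em k' F (Sep F) (C c)) = em k' F (Sep F) (C c)) →
      y ^ (p - 1) * τ y ∈ IntermediateField.adjoin K₂ (L2 : Set (Sep F))

theorem hf_p (hFIN : P_FIN) (hUNR : S_UNR) (hBRI : P_BRP) (hDSN : P_DNP) (hPRK : S_PRK) :
    P_HFP := by
  intro p hpf k k' K F _ _ _ _ _ _ _ _ _ _ hT L₀ _ hμ P hP
  have hp0 : p ≠ 0 := hpf.out.ne_zero
  haveI := hT.sep
  haveI := hT.fracK
  haveI : IsAlgClosed k' := isAC (k := k)
  haveI : IsSepClosure K (Sep F) := sepKΩ hT.map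
  haveI : Algebra.IsSeparable K (Sep F) := IsSepClosure.separable
  haveI : IsGalois K (Sep F) := inferInstance
  haveI : CharZero k' := charZero_of_injective_algebraMap (algebraMap k k').injective
  haveI : CharZero F := charZero_of_injective_algebraMap (IsFractionRing.injective k'[X] F)
  haveI : CharZero K := charZero_of_injective_algebraMap (IsFractionRing.injective k[X] K)
  haveI : IsAlgClosed (Sep F) := isAC_sep
  set L₁ : IntermediateField K (Sep F) := IntermediateField.normalClosure K L₀ (Sep F) with hL₁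
  have hn1 : Normal K L₁ := inferInstance
  obtain ⟨α₀, g, A, B, s', hα₀, hgm, hgα, hgi, hs', hAB⟩ := hPRK k K L₁
  set α : Sep F := (α₀ : Sep F) with hα
  have hL : IntermediateField.adjoin K {α} = L₁ := by
    have h1 := congrArg IntermediateField.lift hα₀
    rw [IntermediateField.lift_adjoin_simple, IntermediateField.lift_top] at h1
    exact h1
  have hgα' : eval₂ (em k K (Sep F)) α g = 0 := by
    have h1 := congrArg (algebraMap L₁ (Sep F)) hgα
    rw [hom_eval₂, map_zero] at h1
    exact h1
  have hαL : α ∈ L₁ := α₀.2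
  set s : k[X] := P * s' with hs
  have hs0 : s ≠ 0 := mul_ne_zero hP hs'
  have hs1 : ∀ v : HeightOneSpectrum k'[X], s.map (algebraMap k k') ∉ v.asIdeal →
      ∃ a : k', v = pl a ∧ (s'.map (algebraMap k k')).eval a ≠ 0 ∧
        (s.map (algebraMap k k')).eval a ≠ 0 := by
    intro v hv
    obtain ⟨a, rfl⟩ := eq_pl' v
    rw [mem_pl'] at hv
    refine ⟨a, rfl, ?_, hv⟩
    intro h
    apply hv
    rw [hs, Polynomial.map_mul, eval_mul, h, mul_zero]
  have hFα : IsIntegral F α := by
    haveI : Algebra.IsSeparable F (Sep F) := IsSepClosure.separable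
    exact (Algebra.IsSeparable.isIntegral F α)
  set N : IntermediateField F (Sep F) := IntermediateField.adjoin F {α} with hN
  haveI : FiniteDimensional F N := IntermediateField.adjoin.finiteDimensional hFα
  letI algN : Algebra k' N := (((algebraMap F N).comp (algebraMap k'[X] F)).comp C).toAlgebra
  have hcN : ∀ c : k', algebraMap k' N c = algebraMap F N (algebraMap k'[X] F (C c)) :=
    fun c => rfl
  obtain ⟨htr, hff⟩ := isFF_adj N hcN
  haveI := hff
  obtain ⟨Z, hZ0, hZ⟩ := hFIN p k' N _ htr (s.map (algebraMap k k'))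
    (by rwa [Ne, Polynomial.map_eq_zero])
  -- `N` is stable
  have hKN : ∀ x : K, algebraMap K (Sep F) x ∈ N := by
    intro x
    rw [IsScalarTower.algebraMap_apply K F (Sep F)]
    exact N.algebraMap_mem _
  have hL₁N : ∀ x ∈ L₁, x ∈ N := by
    intro x hx
    rw [← hL] at hx
    induction hx using IntermediateField.adjoin_induction with
    | mem x hx =>
      rw [Set.mem_singleton_iff] at hx
      rw [hx]
      exact IntermediateField.mem_adjoin_simple_self F α
    | algebraMap x => exact hKN x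
    | add x y _ _ hx hy => exact add_mem hx hy
    | inv x _ hx => exact inv_mem hx
    | mul x y _ _ hx hy => exact mul_mem hx hy
  have hpres : Preserves K F (Sep F) := preserves hT.map
  have hNst : ∀ (τ : Sep F ≃ₐ[K] Sep F), ∀ x ∈ N, τ x ∈ N := by
    intro τ x hx
    induction hx using IntermediateField.adjoin_induction with
    | mem x hx =>
      rw [Set.mem_singleton_iff] at hx
      rw [hx]
      exact hL₁N _ (stabN hn1 τ hαL)
    | algebraMap x =>
      obtain ⟨x', hx'⟩ := hpres τ x
      rw [hx']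
      exact N.algebraMap_mem _
    | add x y _ _ hx hy => rw [map_add]; exact add_mem hx hy
    | inv x _ hx => rw [map_inv₀]; exact inv_mem hx
    | mul x y _ _ hx hy => rw [map_mul]; exact mul_mem hx hy
  set Zs : Set (Sep F) := (fun ζ : N => (ζ : Sep F)) '' (Z : Set N) with hZs
  haveI : Finite Zs := Z.finite_toSet.image _
  haveI : FiniteDimensional K (IntermediateField.adjoin K Zs) :=
    IntermediateField.finiteDimensional_adjoin fun x _ => Algebra.IsSeparable.isIntegral K x
  set L' : IntermediateField K (Sep F) := L₁ ⊔ IntermediateField.adjoin K Zs with hL'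
  haveI : FiniteDimensional K L' := IntermediateField.finiteDimensional_sup _ _
  set L : IntermediateField K (Sep F) := IntermediateField.normalClosure K L' (Sep F) with hLd
  have hle : L' ≤ L := IntermediateField.le_normalClosure L'
  have hnL : Normal K L := inferInstance
  have hLN : ∀ x ∈ L, x ∈ N := by
    have h1 : L ≤ N.restrictScalars K := by
      rw [hLd, IntermediateField.normalClosure_def'']
      refine iSup_le fun f => ?_
      have h2 : L' ≤ N.restrictScalars K := by
        refine sup_le (fun x hx => hL₁N x hx) ?_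
        rw [IntermediateField.adjoin_le_iff]
        rintro _ ⟨ζ, -, rfl⟩
        exact ζ.2
      rintro _ ⟨x, hx, rfl⟩
      exact hNst f x (h2 hx)
    exact fun x hx => h1 hx
  -- square roots
  have hch : ∀ ζ : N, ∃ Y : Sep F, Y ^ p = (ζ : Sep F) := fun ζ =>
    IsAlgClosed.exists_pow_nat_eq _ hpf.out.pos
  choose Yf hYf using hch
  haveI : Finite (Yf '' (Z : Set N)) := (Z.finite_toSet.image Yf)
  haveI : FiniteDimensional K (IntermediateField.adjoin K (Yf '' (Z : Set N))) :=
    IntermediateField.finiteDimensional_adjoin fun x _ => Algebra.IsSeparable.isIntegral K x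
  set L'' : IntermediateField K (Sep F) := L ⊔ IntermediateField.adjoin K (Yf '' (Z : Set N))
    with hL''
  haveI : FiniteDimensional K L'' := IntermediateField.finiteDimensional_sup _ _
  set L2 : IntermediateField K (Sep F) := IntermediateField.normalClosure K L'' (Sep F) with hL2
  have hle2 : L'' ≤ L2 := IntermediateField.le_normalClosure L''
  have hnorm : Normal K L2 := inferInstance
  refine ⟨s, L, L2, hs0, ⟨s', rfl⟩, ?_, le_sup_left.trans hle2, inferInstance, hnL, inferInstance,
    hnorm, ?_, ?_⟩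
  · exact (IntermediateField.le_normalClosure L₀).trans (le_sup_left.trans hle)
  · intro v hv ι σ hσ
    obtain ⟨a, rfl, ha, -⟩ := hs1 v hv
    have h1 := ini_fix hUNR hT hgm hAB hgα' ha hσ
    have h2 : ∀ x ∈ N, σ x = x := by
      intro x hx
      induction hx using IntermediateField.adjoin_induction with
      | mem x hx =>
        rw [Set.mem_singleton_iff] at hx
        rw [hx, h1]
      | algebraMap x => exact σ.commutes x
      | add x y _ _ hx hy => rw [map_add, hx, hy]
      | inv x _ hx => rw [map_inv₀, hx]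
      | mul x y _ _ hx hy => rw [map_mul, hx, hy]
    exact fun x hx => h2 x (hLN x hx)
  · intro k₂ _ K₂ _ _ _ hT₂ y y0 hyL hyI τ hτ
    haveI := hT₂.sep
    haveI := hT₂.fracK
    haveI : IsSepClosure K₂ (Sep F) := sepKΩ hT₂.map
    haveI : Algebra.IsSeparable K₂ (Sep F) := IsSepClosure.separable
    haveI : FiniteDimensional K₂ (IntermediateField.adjoin K₂ (L : Set (Sep F))) :=
      fin_adj hT hT₂ L
    set L₂ : IntermediateField K₂ (Sep F) := IntermediateField.adjoin K₂ (L : Set (Sep F)) with hL₂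
    have hL₂N : ∀ x ∈ L₂, x ∈ N := by
      intro x hx
      induction hx using IntermediateField.adjoin_induction with
      | mem x hx => exact hLN x hx
      | algebraMap x =>
        rw [IsScalarTower.algebraMap_apply K₂ F (Sep F)]
        exact N.algebraMap_mem _
      | add x y _ _ hx hy => exact add_mem hx hy
      | inv x _ hx => exact inv_mem hx
      | mul x y _ _ hx hy => exact mul_mem hx hy
    have hzN : y ^ p ∈ N := hL₂N _ hyL
    have hz0 : (⟨y ^ p, hzN⟩ : N) ≠ 0 := by
      intro h
      exact pow_ne_zero p y0 (congrArg Subtype.val h)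
    obtain ⟨ζ, hζ, w, hw0, hzw⟩ := hZ ⟨y ^ p, hzN⟩ hz0 (by
      intro Pl a hPa hsa
      have hsa' : s.map (algebraMap k k') ∉ (pl a).asIdeal := by
        rwa [mem_pl']
      have hsa'' : (s'.map (algebraMap k k')).eval a ≠ 0 := by
        intro h
        apply hsa
        rw [hs, Polynomial.map_mul, eval_mul, h, mul_zero]
      exact hBRI p k' F (g.map (mapRingHom (algebraMap k k'))) a (hgm.map _) (sep_at hAB hsa'') α
        (by rw [ev_gmap hT, hgα']) hcN y ⟨y ^ p, hzN⟩ hz0 rfl
        (fun ι σ hσ => hyI _ hsa' ι σ hσ) Pl hPa)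
    have hzw' : y ^ p = (ζ : Sep F) * (w : Sep F) ^ p := congrArg Subtype.val hzw
    have hζ0 : (ζ : Sep F) ≠ 0 := fun h => hZ0 ζ hζ (Subtype.ext h)
    have hζL : (ζ : Sep F) ∈ L := hle (le_sup_right (a := L₁)
      (IntermediateField.subset_adjoin _ _ ⟨ζ, hζ, rfl⟩))
    haveI : CharZero k₂ := charZero_of_injective_algebraMap (algebraMap k k₂).injective
    obtain ⟨c, w₁, hc0, hcL, hw₁, hyc⟩ := hDSN p k₂ k' K₂ F hT₂ L₂ (y ^ p) (ζ : Sep F) hyL
      (IntermediateField.subset_adjoin _ _ hζL)
      (pow_ne_zero p y0) hζ0 (w : Sep F) (by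
        have h2 : N ≤ IntermediateField.adjoin F (L₂ : Set (Sep F)) := by
          rw [hN, IntermediateField.adjoin_simple_le_iff]
          apply IntermediateField.subset_adjoin
          exact IntermediateField.subset_adjoin _ _ (hle (le_sup_left
            (b := IntermediateField.adjoin K Zs) hαL))
        exact h2 w.2) hzw'
    obtain ⟨γ, hγ⟩ := IsAlgClosed.exists_pow_nat_eq c hpf.out.pos
    have hγ' : em k' F (Sep F) (C γ) ^ p = em k' F (Sep F) (C c) := by
      rw [← map_pow, ← C_pow, hγ]
    have hc' : em k' F (Sep F) (C c) ≠ 0 := by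
      intro h
      apply hc0
      apply em_inj (k' := k') (F := F)
      show em k' F (Sep F) (C c) = em k' F (Sep F) (C 0)
      rw [h, map_zero, map_zero]
    have hγ0 : em k' F (Sep F) (C γ) ≠ 0 := by
      intro h
      rw [h, zero_pow hp0] at hγ'
      exact hc' hγ'.symm
    have hyy : y ^ p = (Yf ζ * em k' F (Sep F) (C γ) * w₁) ^ p := by
      rw [mul_pow, mul_pow, hγ', hYf, hyc]
    have hYY0 : Yf ζ * em k' F (Sep F) (C γ) * w₁ ≠ 0 := by
      intro h
      rw [h, zero_pow hp0] at hyy
      exact pow_ne_zero p y0 hyy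
    obtain ⟨e, he, hye⟩ := root_quot (k' := k') (F := F) hYY0 hyy
    have hτγ : τ (em k' F (Sep F) (C γ)) ^ p = em k' F (Sep F) (C γ) ^ p := by
      rw [← map_pow, hγ', hτ c hcL]
    obtain ⟨e', he', hτγ'⟩ := root_quot (k' := k') (F := F) hγ0 hτγ
    have hμL : ∀ e : k', e ^ p = 1 → em k' F (Sep F) (C e) ∈ L₂ := by
      intro e he
      exact IntermediateField.subset_adjoin _ _ (hle (le_sup_left
        (b := IntermediateField.adjoin K Zs) (IntermediateField.le_normalClosure L₀ (hμ e he))))
    have hτe : τ (em k' F (Sep F) (C e)) = em k' F (Sep F) (C e) := hτ e (hμL e he)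
    have hLL2 : ∀ x ∈ L₂, x ∈ IntermediateField.adjoin K₂ (L2 : Set (Sep F)) := by
      have : L₂ ≤ IntermediateField.adjoin K₂ (L2 : Set (Sep F)) := by
        apply IntermediateField.adjoin.mono
        exact fun x hx => hle2 (le_sup_left (b := IntermediateField.adjoin K (Yf '' (Z : Set N))) hx)
      exact fun x hx => this hx
    have hYL2 : Yf ζ ∈ IntermediateField.adjoin K₂ (L2 : Set (Sep F)) :=
      IntermediateField.subset_adjoin _ _ (hle2 (le_sup_right (a := L)
        (IntermediateField.subset_adjoin _ _ ⟨ζ, hζ, rfl⟩)))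
    have hst : ∀ x ∈ IntermediateField.adjoin K₂ (L2 : Set (Sep F)),
        τ x ∈ IntermediateField.adjoin K₂ (L2 : Set (Sep F)) := fun x hx =>
      stab_adj hT hT₂ (fun τ x hx => stabN hnorm τ hx) τ hx
    have hmain : Yf ζ ^ (p - 1) * τ (Yf ζ) * em k' F (Sep F) (C c) * w₁ ^ (p - 1) * τ w₁ *
        em k' F (Sep F) (C e') ∈ IntermediateField.adjoin K₂ (L2 : Set (Sep F)) :=
      mul_mem (mul_mem (mul_mem (mul_mem (mul_mem (pow_mem hYL2 _) (hst _ hYL2)) (hLL2 _ hcL))
        (pow_mem (hLL2 _ hw₁) _)) (hst _ (hLL2 _ hw₁))) (hLL2 _ (hμL e' he'))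
    obtain ⟨q, hq⟩ : ∃ q, p = q + 1 := ⟨p - 1, by have := hpf.out.pos; omega⟩
    have hqp : p - 1 = q := by omega
    have he1 : em k' F (Sep F) (C e) ^ (q + 1) = 1 := by
      rw [← hq, ← map_pow, ← C_pow, he, map_one, map_one]
    have hfinal : y ^ (p - 1) * τ y = Yf ζ ^ (p - 1) * τ (Yf ζ) * em k' F (Sep F) (C c) *
        w₁ ^ (p - 1) * τ w₁ * em k' F (Sep F) (C e') := by
      rw [hye, map_mul, map_mul, map_mul, hτe, hτγ', ← hγ', hqp, hq]
      exact fin_rule _ _ _ _ _ _ _ q he1
    rw [hfinal]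
    exact hmain

end Pool.Agent.Helper55.RL
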