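import Pool.Agent.Helper55.RG.Crit
import Pool.Agent.Helper55.RL.Hf

/-!
# The criterion for all primes `p`: the key step
-/

set_option autoImplicit false
set_option linter.all false

open Polynomial IsDedekindDomain
open scoped Classical

namespace Pool.Agent.Helper55.RL

open Pool.Agent.TH115.GD Pool.Agent.R939.EI Pool.Agent.Helper55.TT Pool.Agent.Helper55.UV
open Pool.Agent.Helper55.RG

section sgp

variable {Ω : Type} [Field Ω] {p : ℕ} [hpf : Fact p.Prime]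

/-- the power of a root of unity with exponent in `ZMod p` -/
noncomputable def sgp (ζ : Ω) (a : ZMod p) : Ω := ζ ^ a.val

theorem sgp_zero (ζ : Ω) : sgp ζ (0 : ZMod p) = 1 := by
  unfold sgp
  rw [ZMod.val_zero, pow_zero]

theorem sgp_pow {ζ : Ω} (hζ : ζ ^ p = 1) (a : ZMod p) : sgp ζ a ^ p = 1 := by
  unfold sgp
  rw [← pow_mul, mul_comm, pow_mul, hζ, one_pow]

theorem sgp_ne {ζ : Ω} (hζ : ζ ^ p = 1) (a : ZMod p) : sgp ζ a ≠ 0 := by
  intro h
  have h1 := sgp_pow hζ a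
  rw [h, zero_pow hpf.out.ne_zero] at h1
  exact zero_ne_one h1

theorem sgp_add {ζ : Ω} (hζ : ζ ^ p = 1) (a b : ZMod p) : sgp ζ (a + b) = sgp ζ a * sgp ζ b := by
  haveI : NeZero p := ⟨hpf.out.ne_zero⟩
  unfold sgp
  rw [← pow_add, ZMod.val_add]
  conv_rhs => rw [← Nat.mod_add_div (a.val + b.val) p, pow_add, pow_mul, hζ, one_pow, mul_one]

theorem sgp_one {ζ : Ω} (hζ : IsPrimitiveRoot ζ p) {a : ZMod p} (h : sgp ζ a = 1) : a = 0 := by
  haveI : NeZero p := ⟨hpf.out.ne_zero⟩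
  unfold sgp at h
  have h1 := (hζ.pow_eq_one_iff_dvd _).1 h
  have h2 := Nat.eq_zero_of_dvd_of_lt h1 a.val_lt
  exact (ZMod.val_eq_zero a).1 h2

theorem sgp_inj {ζ : Ω} (hζ : IsPrimitiveRoot ζ p) {a b : ZMod p} (h : sgp ζ a = sgp ζ b) :
    a = b := by
  have h1 : sgp ζ (a - b) * sgp ζ b = 1 * sgp ζ b := by
    rw [← sgp_add hζ.pow_eq_one, sub_add_cancel, h, one_mul]
  have h2 := mul_right_cancel₀ (sgp_ne hζ.pow_eq_one b) h1
  exact sub_eq_zero.1 (sgp_one hζ h2)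

end sgp

theorem quot_y {Ω : Type} [Field Ω] {p : ℕ} (hp : 0 < p) {y : Ω} (hy : y ≠ 0) (z : Ω) :
    z = (y ^ (p - 1) * z / y ^ p) * y := by
  obtain ⟨q, rfl⟩ : ∃ q, p = q + 1 := ⟨p - 1, by omega⟩
  have := pow_ne_zero q hy
  rw [Nat.add_sub_cancel, pow_succ]
  field_simp

section core

variable {k k' K F : Type} [Field k] [CharZero k] [Field k'] [Algebra k k'] [Field K]
    [Algebra k[X] K] [Field F] [Algebra k'[X] F] [IsFractionRing k'[X] F] [Algebra K F]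

/-- The key step: characters of `G_L` which vanish at the zeros of a cocycle and their conjugates. -/
theorem key_char_p {p : ℕ} [hpf : Fact p.Prime] (hKUM : P_KMP) (hCH1 : P_CP1)
    (hT : IsTower k k' K F)
    {L L2 : IntermediateField K (Sep F)} [FiniteDimensional K L] [Normal K L] (hle : L ≤ L2)
    (hμ : ∀ e : k', e ^ p = 1 → em k' F (Sep F) (C e) ∈ L)
    {s : k[X]} (hs : s ≠ 0)
    (hunr : ∀ v : HeightOneSpectrum k'[X], s.map (algebraMap k k') ∉ v.asIdeal →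
      ∀ (ι : Sep F →ₐ[F] Sep (Comp k'[X] F v)) (σ : Sep F ≃ₐ[F] Sep F),
      InI (Comp k'[X] F v) ι σ → rH K F (Sep F) σ ∈ L.fixingSubgroup)
    (hfin : ∀ y : Sep F, y ≠ 0 → y ^ p ∈ L →
      (∀ v : HeightOneSpectrum k'[X], s.map (algebraMap k k') ∉ v.asIdeal →
        ∀ (ι : Sep F →ₐ[F] Sep (Comp k'[X] F v)) (σ : Sep F ≃ₐ[F] Sep F),
        InI (Comp k'[X] F v) ι σ → σ y = y) →
      ∀ τ : Sep F ≃ₐ[K] Sep F, (∀ c : k', em k' F (Sep F) (C c) ∈ L →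
        τ (em k' F (Sep F) (C c)) = em k' F (Sep F) (C c)) → y ^ (p - 1) * τ y ∈ L2)
    (k₁ : IntermediateField k k') [FiniteDimensional k k₁]
    (hk₁ : ∀ c : k', c ∈ k₁ ↔ em k' F (Sep F) (C c) ∈ L)
    {π : k[X]} (hπ₁ : Irreducible (π.map (algebraMap k k₁)))
    (hind : IndepP p (π.map (algebraMap k k₁)) (s.map (algebraMap k k₁)))
    {θ : k'} (hθ : aeval θ π = 0) (hθs : aeval θ s ≠ 0)
    (ι : Sep F →ₐ[F] Sep (Comp k'[X] F (pl θ)))
    (hsur : ∀ σ : Sep F ≃ₐ[K] Sep F, ∃ δ : Sep F ≃ₐ[K] Sep F,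
      InD K (Comp k'[X] F (pl θ)) ι δ ∧ ∀ x ∈ L2, δ x = σ x)
    (H : Subgroup (Sep F ≃ₐ[K] Sep F))
    (hH : ∀ g : Sep F ≃ₐ[K] Sep F, InD K (Comp k'[X] F (pl θ)) ι g → g ∈ H)
    (χ : (Sep F ≃ₐ[K] Sep F) → ZMod p)
    (hadd : ∀ σ ∈ L.fixingSubgroup, ∀ τ ∈ L.fixingSubgroup, χ (σ * τ) = χ σ + χ τ)
    {S : Set (Sep F)} (hS : S.Finite) (hSχ : ∀ u ∈ L.fixingSubgroup, (∀ x ∈ S, u x = x) → χ u = 0)
    (hχH : ∀ σ ∈ L.fixingSubgroup, σ ∈ H → ∀ g, χ (g * σ * g⁻¹) = 0)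
    (hχI : ∀ v : HeightOneSpectrum k'[X], s.map (algebraMap k k') ∉ v.asIdeal →
      ∀ (ι' : Sep F →ₐ[F] Sep (Comp k'[X] F v)) (σ : Sep F ≃ₐ[F] Sep F),
      InI (Comp k'[X] F v) ι' σ → χ (rH K F (Sep F) σ) = 0) :
    ∀ σ ∈ L.fixingSubgroup, χ σ = 0 := by
  haveI := hT.sep
  haveI := hT.fracK
  haveI : IsSepClosure K (Sep F) := sepKΩ hT.map
  haveI : Algebra.IsSeparable K (Sep F) := IsSepClosure.separable
  haveI : IsGalois K (Sep F) := inferInstance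
  haveI : CharZero K := charZero_of_injective_algebraMap (IsFractionRing.injective k[X] K)
  haveI : CharZero (Sep F) := charZero_of_injective_algebraMap (algebraMap K (Sep F)).injective
  haveI : IsAlgClosed k' := isAC (k := k)
  haveI : CharZero k' := charZero_of_injective_algebraMap (algebraMap k k').injective
  obtain ⟨e₀, he₀⟩ := exists_prim p k'
  set ζ : Sep F := em k' F (Sep F) (C e₀) with hζd
  have hζ : IsPrimitiveRoot ζ p := prim_em he₀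
  have hζ1 : ζ ^ p = 1 := hζ.pow_eq_one
  have hζL : ζ ∈ L := hμ e₀ he₀.pow_eq_one
  have hsL : ∀ a : ZMod p, sgp ζ a ∈ L := fun a => pow_mem hζL _
  have hstab : ∀ (τ : Sep F ≃ₐ[K] Sep F) (x : Sep F), x ∈ L → τ x ∈ L := by
    intro τ x hx
    have h1 := (IntermediateField.normal_iff_forall_map_le'.1 (inferInstance : Normal K L)) τ
    exact h1 ⟨x, hx, rfl⟩
  have hN : ∀ (g : Sep F ≃ₐ[K] Sep F), ∀ n ∈ L.fixingSubgroup, g * n * g⁻¹ ∈ L.fixingSubgroup := by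
    intro g n hn
    rw [IntermediateField.mem_fixingSubgroup_iff] at hn ⊢
    intro x hx
    show g (n (g⁻¹ x)) = x
    rw [hn _ (hstab g⁻¹ x hx), ← AlgEquiv.mul_apply, mul_inv_cancel]
    rfl
  have hmemN : ∀ n : Sep F ≃ₐ[K] Sep F, n ∈ L.fixingSubgroup ↔ ∀ x ∈ L, n x = x := fun n =>
    IntermediateField.mem_fixingSubgroup_iff _ _
  have hagree : ∀ {δ τ : Sep F ≃ₐ[K] Sep F}, (∀ x ∈ L, δ x = τ x) → δ⁻¹ * τ ∈ L.fixingSubgroup := by
    intro δ τ h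
    rw [hmemN]
    intro x hx
    show δ⁻¹ (τ x) = x
    rw [← h x hx, ← AlgEquiv.mul_apply, inv_mul_cancel]
    rfl
  obtain ⟨y, hy0, hyL, hyχ⟩ := hKUM p K (Sep F) L (fun σ => sgp ζ (χ σ))
    (fun ξ hξ => by
      obtain ⟨e, he, rfl⟩ := root_em (k' := k') (F := F) hξ
      exact hμ e he)
    (fun σ => sgp_pow hζ1 _) (fun σ hσ τ hτ => by
      show sgp ζ (χ (σ * τ)) = _
      rw [hadd σ hσ τ hτ, sgp_add hζ1]) S hS (fun u hu hu' => by
      show sgp ζ (χ u) = 1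
      rw [hSχ u hu hu', sgp_zero])
  have hyχ' : ∀ σ ∈ L.fixingSubgroup, σ y = sgp ζ (χ σ) * y := hyχ
  have hyI : ∀ v : HeightOneSpectrum k'[X], s.map (algebraMap k k') ∉ v.asIdeal →
      ∀ (ι : Sep F →ₐ[F] Sep (Comp k'[X] F v)) (σ : Sep F ≃ₐ[F] Sep F),
      InI (Comp k'[X] F v) ι σ → σ y = y := by
    intro v hv ι' σ hσ
    have h1 := hyχ' _ (hunr v hv ι' σ hσ)
    rw [hχI v hv ι' σ hσ, sgp_zero, one_mul] at h1
    exact h1
  set Γ₁ : Subgroup (Sep F ≃ₐ[K] Sep F) :=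
    { carrier := {τ | ∀ c ∈ k₁, τ (em k' F (Sep F) (C c)) = em k' F (Sep F) (C c)}
      mul_mem' := by
        intro a b ha hb c hc
        show a (b _) = _
        rw [hb c hc, ha c hc]
      one_mem' := fun c _ => rfl
      inv_mem' := by
        intro a ha c hc
        show a⁻¹ _ = _
        nth_rewrite 1 [← ha c hc]
        rw [← AlgEquiv.mul_apply, inv_mul_cancel]
        rfl } with hΓ₁
  have hΓ : ∀ τ : Sep F ≃ₐ[K] Sep F, τ ∈ Γ₁ ↔
      ∀ c ∈ k₁, τ (em k' F (Sep F) (C c)) = em k' F (Sep F) (C c) := fun τ => Iff.rfl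
  have hNΓ : L.fixingSubgroup ≤ Γ₁ := by
    intro n hn c hc
    exact (hmemN n).1 hn _ ((hk₁ c).1 hc)
  have hagΓ : ∀ {δ τ : Sep F ≃ₐ[K] Sep F}, (∀ x ∈ L, δ x = τ x) → τ ∈ Γ₁ → δ ∈ Γ₁ := by
    intro δ τ h hτ c hc
    rw [h _ ((hk₁ c).1 hc), hτ c hc]
  have hsΓ : ∀ τ ∈ Γ₁, ∀ a : ZMod p, τ (sgp ζ a) = sgp ζ a := by
    intro τ hτ a
    unfold sgp
    rw [map_pow, hζd, hτ e₀ ((hk₁ e₀).2 hζL)]
  have hfin' : ∀ τ ∈ Γ₁, y ^ (p - 1) * τ y ∈ L2 := by
    intro τ hτ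
    exact hfin y hy0 hyL hyI τ fun c hc => hτ c ((hk₁ c).2 hc)
  by_cases hA : ∃ τ ∈ Γ₁, y ^ (p - 1) * τ y ∉ L
  · -- the case of non-invariance
    exfalso
    obtain ⟨τ, hτ, hτL⟩ := hA
    obtain ⟨δ, hδD, hδ⟩ := hsur τ
    have hδH := hH δ hδD
    have hδL : ∀ x ∈ L, δ x = τ x := fun x hx => hδ x (hle hx)
    have hδΓ : δ ∈ Γ₁ := hagΓ hδL hτ
    have hx2 := hfin' δ hδΓ
    have hxL : y ^ (p - 1) * δ y ∉ L := by
      have h1 := hagree (δ := τ) (τ := δ) fun x hx => (hδL x hx).symm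
      have h2 := hyχ' _ h1
      have h3 : δ y = τ ((τ⁻¹ * δ) y) := by
        rw [← AlgEquiv.mul_apply, mul_inv_cancel_left]
      rw [h3, h2, map_mul, hsΓ τ hτ]
      intro h'
      apply hτL
      have h4 := mul_mem (inv_mem (hsL (χ (τ⁻¹ * δ)))) h'
      have h5 : (sgp ζ (χ (τ⁻¹ * δ)))⁻¹ * (y ^ (p - 1) * (sgp ζ (χ (τ⁻¹ * δ)) * τ y)) =
          y ^ (p - 1) * τ y := by
        have := sgp_ne hζ1 (χ (τ⁻¹ * δ))
        field_simp
      rwa [h5] at h4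
    -- fixed by `H ∩ G_L`
    have hfix : ∀ h ∈ H, h ∈ L.fixingSubgroup → h (y ^ (p - 1) * δ y) = y ^ (p - 1) * δ y := by
      intro h hhH hhN
      have h1 : χ h = 0 := by
        have := hχH h hhN hhH 1
        rwa [one_mul, inv_one, mul_one] at this
      have h2 : h y = y := by rw [hyχ' h hhN, h1, sgp_zero, one_mul]
      have h3 : h (δ y) = δ y := by
        have h4 := hχH h hhN hhH δ⁻¹
        rw [inv_inv] at h4
        have h5 := hN δ⁻¹ h hhN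
        rw [inv_inv] at h5
        have h6 := hyχ' _ h5
        rw [h4, sgp_zero, one_mul] at h6
        have h7 := congrArg δ h6
        rw [← AlgEquiv.mul_apply] at h7
        have h8 : δ * (δ⁻¹ * h * δ) = h * δ := by group
        rw [h8] at h7
        exact h7
      rw [map_mul, map_pow, h2, h3]
    -- moved by some element of `G_L`
    have hmove : ∃ σ ∈ L.fixingSubgroup, σ (y ^ (p - 1) * δ y) ≠ y ^ (p - 1) * δ y := by
      by_contra hcon
      push Not at hcon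
      apply hxL
      have h1 : y ^ (p - 1) * δ y ∈ IntermediateField.fixedField L.fixingSubgroup := by
        rintro ⟨σ, hσ⟩
        exact hcon σ hσ
      rwa [InfiniteGalois.fixedField_fixingSubgroup] at h1
    obtain ⟨σ, hσ, hσx⟩ := hmove
    obtain ⟨δ', hδ'D, hδ'⟩ := hsur σ
    apply hσx
    rw [← hδ' _ hx2]
    apply hfix δ' (hH _ hδ'D)
    rw [hmemN]
    intro x hx
    rw [hδ' x (hle hx)]
    exact (hmemN σ).1 hσ x hx
  · -- the invariant case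
    push Not at hA
    have hinv : ∀ τ ∈ Γ₁, ∀ σ ∈ L.fixingSubgroup, χ (τ⁻¹ * σ * τ) = χ σ := by
      intro τ hτ σ hσ
      have hl := hA τ hτ
      have h1 : τ y = (y ^ (p - 1) * τ y / y ^ p) * y := quot_y hpf.out.pos hy0 (τ y)
      have h2 : σ (y ^ (p - 1) * τ y / y ^ p) = y ^ (p - 1) * τ y / y ^ p :=
        (hmemN σ).1 hσ _ (div_mem hl hyL)
      have h3 : σ (τ y) = sgp ζ (χ σ) * τ y := by
        have h4 := congrArg σ h1
        rw [map_mul, h2, hyχ' σ hσ] at h4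
        rw [h4, mul_left_comm, ← h1]
      have h5 := hN τ⁻¹ σ hσ
      rw [inv_inv] at h5
      have h6 := hyχ' _ h5
      have h7 : (τ⁻¹ * σ * τ) y = sgp ζ (χ σ) * y := by
        rw [AlgEquiv.mul_apply, AlgEquiv.mul_apply, h3, map_mul, hsΓ _ (Γ₁.inv_mem hτ),
          ← AlgEquiv.mul_apply τ⁻¹ τ, inv_mul_cancel]
        rfl
      have h8 : sgp ζ (χ (τ⁻¹ * σ * τ)) = sgp ζ (χ σ) :=
        mul_right_cancel₀ hy0 (h6.symm.trans h7)
      exact sgp_inj hζ h8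
    have hrep : ∀ τ : Sep F ≃ₐ[K] Sep F, ∃ h ∈ H, ∀ x ∈ L, h x = τ x := by
      intro τ
      obtain ⟨δ, hδD, hδ⟩ := hsur τ
      exact ⟨δ, hH δ hδD, fun x hx => hδ x (hle hx)⟩
    choose hh hhH hhL using hrep
    set χ' : (Sep F ≃ₐ[K] Sep F) → ZMod p := fun τ => χ ((hh τ)⁻¹ * τ) with hχ'
    have hχ0 : ∀ σ ∈ L.fixingSubgroup, σ ∈ H → χ σ = 0 := by
      intro σ hσ hσH
      have := hχH σ hσ hσH 1
      rwa [one_mul, inv_one, mul_one] at this
    have hwd : ∀ (τ h : Sep F ≃ₐ[K] Sep F), h ∈ H → (∀ x ∈ L, h x = τ x) →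
        χ' τ = χ (h⁻¹ * τ) := by
      intro τ h hhH' hhL'
      show χ ((hh τ)⁻¹ * τ) = _
      have h1 : (hh τ)⁻¹ * τ = ((hh τ)⁻¹ * h) * (h⁻¹ * τ) := by group
      have h2 : (hh τ)⁻¹ * h ∈ L.fixingSubgroup := hagree fun x hx => by rw [hhL τ x hx, hhL' x hx]
      rw [h1, hadd _ h2 _ (hagree hhL'), hχ0 _ h2 (H.mul_mem (H.inv_mem (hhH τ)) hhH'), zero_add]
    have hχN : ∀ σ ∈ L.fixingSubgroup, χ' σ = χ σ := by
      intro σ hσ
      rw [hwd σ 1 H.one_mem fun x hx => ((hmemN σ).1 hσ x hx).symm, inv_one, one_mul]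
    have hχmul : ∀ σ ∈ Γ₁, ∀ τ ∈ Γ₁, χ' (σ * τ) = χ' σ + χ' τ := by
      intro σ hσ τ hτ
      have hτΓ : hh τ ∈ Γ₁ := hagΓ (hhL τ) hτ
      have hσn := hagree (hhL σ)
      have hτn := hagree (hhL τ)
      rw [hwd (σ * τ) (hh σ * hh τ) (H.mul_mem (hhH σ) (hhH τ)) (fun x hx => by
        rw [AlgEquiv.mul_apply, AlgEquiv.mul_apply, hhL τ x hx, hhL σ _ (hstab τ x hx)])]
      have h1 : (hh σ * hh τ)⁻¹ * (σ * τ) =
          ((hh τ)⁻¹ * ((hh σ)⁻¹ * σ) * hh τ) * ((hh τ)⁻¹ * τ) := by group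
      have h2 : (hh τ)⁻¹ * ((hh σ)⁻¹ * σ) * hh τ ∈ L.fixingSubgroup := by
        have := hN (hh τ)⁻¹ _ hσn
        rwa [inv_inv] at this
      rw [h1, hadd _ h2 _ hτn, hinv _ hτΓ _ hσn]
    obtain ⟨S', hS'⟩ : ∃ S' : Finset (Sep F), L = IntermediateField.adjoin K (S' : Set (Sep F)) := by
      obtain ⟨S', hS'⟩ := IntermediateField.essFiniteType_iff.1 (inferInstance : Algebra.EssFiniteType K L)
      exact ⟨S', hS'.symm⟩
    have hfinN : ∀ u : Sep F ≃ₐ[K] Sep F, (∀ x ∈ (S' : Set (Sep F)), u x = x) →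
        u ∈ L.fixingSubgroup := by
      intro u hu
      rw [hmemN]
      intro x hx
      rw [hS'] at hx
      induction hx using IntermediateField.adjoin_induction with
      | mem x hx => exact hu x hx
      | algebraMap x => exact u.commutes x
      | add x y _ _ hx hy => rw [map_add, hx, hy]
      | inv x _ hx => rw [map_inv₀, hx]
      | mul x y _ _ hx hy => rw [map_mul, hx, hy]
    have key := hCH1 p k k' K F hT k₁ s π (fun e he => (hk₁ e).2 (hμ e he)) hs hπ₁ hind θ hθ hθs ι Γ₁ hΓ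
      (fun σ => sgp ζ (χ' σ)) (fun σ => sgp_pow hζ1 _) (fun σ hσ τ hτ => by
        show sgp ζ (χ' (σ * τ)) = _
        rw [hχmul σ hσ τ hτ, sgp_add hζ1]) (S ∪ S') (hS.union S'.finite_toSet)
      (fun u _ hu => by
        have hun := hfinN u fun x hx => hu x (Or.inr hx)
        show sgp ζ (χ' u) = 1
        rw [hχN u hun, hSχ u hun fun x hx => hu x (Or.inl hx), sgp_zero])
      (fun v hv ι' σ hσ => by
        show sgp ζ (χ' (rH K F (Sep F) σ)) = 1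
        rw [hχN _ (hunr v hv ι' σ hσ), hχI v hv ι' σ hσ, sgp_zero])
      (fun g _ hgD => by
        show sgp ζ (χ' g) = 1
        rw [hwd g g (hH g hgD) fun x _ => rfl, inv_mul_cancel,
          hχ0 1 L.fixingSubgroup.one_mem H.one_mem, sgp_zero])
    intro σ hσ
    have h1 := key σ (hNΓ hσ)
    have h2 : sgp ζ (χ' σ) = 1 := h1
    rw [hχN σ hσ] at h2
    exact sgp_one hζ h2

end core

end Pool.Agent.Helper55.RL
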