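import Pool.Agent.Helper55.RG.Asm4
import Pool.Agent.Helper55.RG.Asm6
import Pool.Agent.Helper55.RL.Crit2

/-!
# The theorem for all primes: the decomposition groups
-/

set_option autoImplicit false
set_option linter.all false

open Polynomial IsDedekindDomain NumberField
open scoped Classical

namespace Pool.Agent.Helper55.RL

open Pool.Agent Pool.Agent.TH115.GD Pool.Agent.R939.EI Pool.Agent.R939.PP Pool.Agent.R939.HI
  Pool.Agent.W275.UB Pool.Agent.Helper55.TT Pool.Agent.H927R2.RD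
open Pool.Agent.Helper55.UV (IsCo IsCoG IsInvt rH rH_inj rH_apply)
open Pool.Agent.Helper55.RG hiding em_inj VanishL VanishExt

section ext

variable {k k' K F : Type} [Field k] [CharZero k] [Field k'] [Algebra k k'] [Field K]
    [Algebra k[X] K] [Field F] [Algebra k'[X] F] [IsFractionRing k'[X] F] [Algebra K F]
    {k₂ : IntermediateField k k'} {K₂ : Type} [Field K₂] [Algebra k₂[X] K₂] [Algebra K₂ F]

theorem sur_rel (hSU2 : S_SU2) (hT : IsTower k k' K F) (hT₂ : IsTower k₂ k' K₂ F) {π : k[X]}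
    (hπ : Irreducible π) {θ : k'} (hθ : aeval θ π = 0)
    (ι : Sep F →ₐ[F] Sep (Comp k'[X] F (pl θ))) {g : k[X][X]} (hg : g.Monic)
    (hgi : Irreducible (g.map (AdjoinRoot.mk π))) {α : Sep F}
    (hα : eval₂ (em k K (Sep F)) α g = 0) {M : IntermediateField k k'}
    (hM : ∀ s₀ : k' ≃ₐ[k] k', (∀ x ∈ k₂ ⊓ M, s₀ x = x) →
      ∃ s : k' ≃ₐ[k] k', (∀ x ∈ M, s x = s₀ x) ∧ ∀ x ∈ k₂, s x = x)
    (hkM : ∀ c ∈ k₂ ⊓ M, em k' F (Sep F) (C c) ∈ IntermediateField.adjoin K {α})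
    (hθM : θ ∈ M) (hbM : ∀ b : k', ev2 (algebraMap k k') θ b g = 0 → b ∈ M)
    (σ : Sep F ≃ₐ[K₂] Sep F) :
    ∃ δ : Sep F ≃ₐ[K₂] Sep F, InD K₂ (Comp k'[X] F (pl θ)) ι δ ∧ δ α = σ α := by
  obtain ⟨σ', hσ'⟩ := resc hT hT₂ σ
  obtain ⟨b, b', hb, hb', ⟨s₀, h1, h2⟩, hall⟩ := hSU2 k k' K F hT π θ hπ hθ ι g hg hgi α hα σ'
  have hs₀ : ∀ c ∈ k₂ ⊓ M, s₀ c = c := by
    intro c hc
    obtain ⟨δ₀, -, -, -, -, hδα₀, hδc₀⟩ := hall s₀ h1 h2
    have e1 : ∀ x ∈ IntermediateField.adjoin K {α}, δ₀ x = σ' x := by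
      intro x hx
      induction hx using IntermediateField.adjoin_induction with
      | mem x hx =>
        rw [Set.mem_singleton_iff] at hx
        rw [hx, hδα₀]
      | algebraMap x => rw [δ₀.commutes, σ'.commutes]
      | add x y _ _ hx hy => rw [map_add, map_add, hx, hy]
      | inv x _ hx => rw [map_inv₀, map_inv₀, hx]
      | mul x y _ _ hx hy => rw [map_mul, map_mul, hx, hy]
    have e2 := e1 _ (hkM c hc)
    rw [hδc₀, hσ'] at e2
    have hc2 : c ∈ k₂ := hc.1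
    have e3 : σ (em k' F (Sep F) (C c)) = em k' F (Sep F) (C c) := by
      have e4 := em_map (k' := k') (K := K₂) (F := F) hT₂ (C (⟨c, hc2⟩ : k₂))
      rw [map_C] at e4
      have e5 : (algebraMap k₂ k') (⟨c, hc2⟩ : k₂) = c := rfl
      rw [e5] at e4
      rw [← e4]
      exact σ.commutes _
    rw [e3] at e2
    exact em_inj (k' := k') (F := F) e2
  obtain ⟨s, hsM, hsk⟩ := hM s₀ hs₀
  obtain ⟨δ, G, γ, hG, hGι, hδα, hδc⟩ := hall s (by rw [hsM θ hθM, h1])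
    (by rw [hsM b (hbM b hb), h2])
  have hK₂ := fix_K₂ hT hT₂ hδc hsk
  refine ⟨AlgEquiv.ofRingEquiv (f := δ.toRingEquiv) hK₂, ⟨AlgEquiv.ofRingEquiv
    (f := G.toRingEquiv) ?_, γ, hG, hGι⟩, ?_⟩
  · intro x
    have h3 : algebraMap K₂ (Sep (Comp k'[X] F (pl θ))) x = ι (algebraMap K₂ (Sep F) x) := by
      rw [IsScalarTower.algebraMap_apply K₂ F (Sep (Comp k'[X] F (pl θ))),
        IsScalarTower.algebraMap_apply K₂ F (Sep F)]
      exact (ι.commutes _).symm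
    show G (algebraMap K₂ (Sep (Comp k'[X] F (pl θ))) x) = _
    rw [h3, hGι, hK₂]
  · show δ α = σ α
    rw [hδα, hσ']

end ext

end Pool.Agent.Helper55.RL
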