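import Pool.Agent.Helper55.RL.Asm2

/-!
# The theorem for all primes: the dense set
-/

set_option autoImplicit false
set_option linter.all false

open Polynomial IsDedekindDomain NumberField
open scoped Classical

namespace Pool.Agent.Helper55.RL

open Pool.Agent Pool.Agent.TH115.GD Pool.Agent.R939.EI Pool.Agent.R939.PP Pool.Agent.R939.HI
  Pool.Agent.W275.UB Pool.Agent.Helper55.TT Pool.Agent.H927R2.RD
open Pool.Agent.Helper55.UV (IsCo IsCoG IsInvt rH rH_inj rH_apply)
open Pool.Agent.Helper55.RG hiding em_inj VanishL VanishExt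

section main

variable {k k' K F : Type} [Field k] [Field k'] [Algebra k k'] [Field K]
    [Algebra k[X] K] [Field F] [Algebra k'[X] F] [IsFractionRing k'[X] F] [Algebra K F]

/-- The dense set. -/
theorem dense_p {p : ℕ} [hpf : Fact p.Prime] (hDSL : P_DLP) (hKUM : P_KMP) (hCJ1 : S_CJ1)
    (hCJ2 : S_CJ2) (hCH1 : P_CP1) (hSU2 : S_SU2) (hSPM : P_SP2) (hCON : S_CON) (hKAP : P_KPP)
    (hBDS : P_BDP) (hHF2 : P_HFP) (hPRK : S_PRK) (hIRR : S_IRR) (hIRK : S_IRK) (hIK1 : P_K1P)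
    [NumberField k] (hT : IsTower k k' K F) {J : Type} [Fintype J]
    (B : Module.Basis J ℤ (𝓞 k)) (L₀ : IntermediateField K (Sep F)) [FiniteDimensional K L₀]
    {P : k[X]} (hP : P ≠ 0) {n : ℕ} (hn : 3 ≤ n) :
    ∃ N : ℕ, 0 < N ∧ D0 {x : (Σ l : Fin 1, Fin ((fun _ => n : Fin 1 → ℕ) l + 1)) × J → ℤ |
      ¬ VanishExt p k' K F L₀ P N (Dp B x 0)} := by
  haveI := hT.sep
  haveI := hT.fracK
  haveI : IsSepClosure K (Sep F) := sepKΩ hT.map
  haveI : Algebra.IsSeparable K (Sep F) := IsSepClosure.separable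
  haveI : IsGalois K (Sep F) := inferInstance
  haveI : IsAlgClosed k' := isAC (k := k)
  set μ : Set (Sep F) := (fun e : k' => em k' F (Sep F) (C e)) '' {e : k' | e ^ p = 1} with hμd
  have hμf : {e : k' | e ^ p = 1}.Finite := by
    refine (Polynomial.finite_setOf_isRoot (X_pow_sub_C_ne_zero hpf.out.pos (1 : k'))).subset ?_
    intro e he
    show (X ^ p - C (1 : k')).eval e = 0
    rw [eval_sub, eval_pow, eval_X, eval_C, he, sub_self]
  haveI : Finite μ := hμf.image _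
  haveI : FiniteDimensional K (IntermediateField.adjoin K μ) :=
    IntermediateField.finiteDimensional_adjoin fun x _ => Algebra.IsSeparable.isIntegral K x
  haveI : FiniteDimensional K (L₀ ⊔ IntermediateField.adjoin K μ : IntermediateField K (Sep F)) :=
    IntermediateField.finiteDimensional_sup _ _
  obtain ⟨s, L, L2, hs, hPs, hL₀', hle, hfd, hnL, hfd2, hn2, hunr, hfin⟩ :=
    hHF2 p k k' K F hT (L₀ ⊔ IntermediateField.adjoin K μ) (fun e he =>
      le_sup_right (a := L₀) (IntermediateField.subset_adjoin _ _ ⟨e, he, rfl⟩)) P hP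
  have hL₀ : L₀ ≤ L := le_sup_left.trans hL₀'
  have hμ : ∀ e : k', e ^ p = 1 → em k' F (Sep F) (C e) ∈ L := fun e he =>
    hL₀' (le_sup_right (a := L₀) (IntermediateField.subset_adjoin _ _ ⟨e, he, rfl⟩))
  haveI := hfd
  haveI := hnL
  haveI := hfd2
  haveI := hn2
  obtain ⟨α₀, g, -, -, -, hα₀, hgm, hgα, hgi, -, -⟩ := hPRK k K L2
  set α : Sep F := (α₀ : Sep F) with hα
  have hL2 : IntermediateField.adjoin K {α} = L2 := by
    have h1 := congrArg IntermediateField.lift hα₀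
    rw [IntermediateField.lift_adjoin_simple, IntermediateField.lift_top] at h1
    exact h1
  have hgα' : eval₂ (em k K (Sep F)) α g = 0 := by
    have h1 := congrArg (algebraMap L2 (Sep F)) hgα
    rw [hom_eval₂, map_zero] at h1
    exact h1
  haveI : FiniteDimensional k (consts hT L) := fin_consts hT L
  haveI : NumberField (consts hT L) := NumberField.of_module_finite k (consts hT L)
  obtain ⟨N, hN0, hN⟩ := hBDS p k k' s g (consts hT L) n hs hgm
  refine ⟨N, hN0, ?_⟩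
  set n' : Fin 1 → ℕ := fun _ => n with hn'
  have d1 : D0 {x : (Σ l : Fin 1, Fin (n' l + 1)) × J → ℤ | ¬ AllIrr (Dp B x 0)} :=
    dens_allIrr B 0 (le_trans (by norm_num) hn)
  have d2 := hIRR k J B 1 n' 0 (le_trans (by norm_num) hn) g hgm (irr_frac hgi)
  have d3 := hIRK k (consts hT L) J B 1 n' 0 (le_trans (by norm_num) hn)
  have d4 := hIK1 p k (consts hT L) J B 1 n' 0 hn (s.map (algebraMap k (consts hT L)))
    (by rwa [Ne, Polynomial.map_eq_zero])
  have d5 : D0 {x : (Σ l : Fin 1, Fin (n' l + 1)) × J → ℤ | Irreducible (Dp B x 0) ∧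
      Dp B x 0 ∣ s} := dens_ndvd B 0 (le_trans (by norm_num) hn) hs
  intro ε hε
  refine (((((d1.union d2).union d3).union d4).union d5) ε hε).mono ?_
  intro x hx
  by_contra hcon
  simp only [Set.mem_union, Set.mem_setOf_eq, not_or, not_not, not_and] at hcon
  obtain ⟨⟨⟨⟨h1, h2⟩, h3⟩, h4⟩, h5⟩ := hcon
  apply hx
  have hirr : Irreducible (Dp B x 0) := h1.1
  obtain ⟨M, hMf, hMg, hMN, hM1, hMD, hMs, hMb, hMw⟩ := hN (Dp B x 0) hirr.ne_zero
    (polA_natDegree (fun j => kv B x ⟨0, j⟩))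
  haveI := hMf
  haveI := hMg
  refine ⟨M, hMg, hMf, hMN, ?_⟩
  intro k₂ hk₂f hk₂ K₂ _ _ _ hT₂
  exact vanish_one_p hDSL hKUM hCJ1 hCJ2 hCH1 hSU2 hSPM hCON hKAP hT hs hPs hL₀ hle hμ hunr hfin
    hgm hgα' hL2 hirr (h2 hirr) h3 (h4 h3) (h5 hirr) hM1 hMD hMs hMb hMw k₂ hk₂ K₂ hT₂

end main

end Pool.Agent.Helper55.RL
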