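import Pool.Agent.Helper55.RG.Asm7
import Pool.Agent.Helper55.RL.Asm3
import Pool.Agent.Helper10.RL.BRP
import Pool.Agent.Helper10.RL.CHP
import Pool.Agent.Helper49.RL.BDP
import Pool.Agent.Helper49.RL.KPP
import Pool.Agent.Helper51.RL.CP1
import Pool.Agent.Helper51.RL.DNP
import Pool.Agent.Helper51.RL.KMP
import Pool.Agent.Helper51.RL.PWR
import Pool.Agent.Helper54.RL.SP2
import Pool.Agent.Helper56.RL.BZP
import Pool.Agent.Helper57.RG.DLP
import Pool.Agent.Helper57.RG.TNPm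
import Pool.Agent.Helper79.RL.K1P
import Pool.Agent.Helper79.RL.KBP
import Pool.Agent.Helper79.RL.KCP

/-!
# The theorem for all primes: the proof
-/

set_option autoImplicit false
set_option linter.all false

open Polynomial IsDedekindDomain NumberField
open scoped Classical

namespace Pool.Agent.Helper55.RL

open Pool.Agent Pool.Agent.TH115.GD Pool.Agent.R939.EI Pool.Agent.R939.PP Pool.Agent.R939.HI
  Pool.Agent.W275.UB Pool.Agent.Helper55.TT Pool.Agent.H927R2.RD
open Pool.Agent.Helper55.RG hiding em_inj VanishL VanishExt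

theorem rigP : P_RIG :=
  rig_p Pool.Agent.Helper30.RG.DER.main Pool.Agent.Helper72.RG.LEI.main est
    Pool.Agent.Helper72.RG.REC.main Pool.Agent.Helper72.RG.CST.main Pool.Agent.Helper51.RL.PWR.main
    Pool.Agent.Helper47.RG.PRI.main

theorem finP : P_FIN :=
  fin_p rigP Pool.Agent.Helper47.RG.PRI.main Pool.Agent.Helper31.RG.EXP.main
    Pool.Agent.Helper31.RG.VAL.main Pool.Agent.Helper31.RG.UPL.main Pool.Agent.Helper30.RG.GAC.main
    Pool.Agent.Helper79.RG.REG.main Pool.Agent.Helper56.RL.BZP.main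
    Pool.Agent.Helper33.RG.BZ2.main Pool.Agent.Helper72.RG.LOS.main

theorem hfP : P_HFP :=
  hf_p finP Pool.Agent.Helper35.RG.UNR.main
    (Pool.Agent.Helper10.RL.BRP.main Pool.Agent.Helper31.RG.UPL.main)
    Pool.Agent.Helper51.RL.DNP.main Pool.Agent.Helper47.RG.PRK.main

theorem k1P : P_K1P :=
  Pool.Agent.Helper79.RL.K1P.main
    (Pool.Agent.Helper79.RL.KBP.main Pool.Agent.Helper71.RG.SYK.main
      Pool.Agent.Helper57.RG.TNP.main)
    (Pool.Agent.Helper79.RL.KCP.main Pool.Agent.Helper71.RG.SYK.main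
      Pool.Agent.Helper57.RG.TNP.main)

section main

variable {k k' K F : Type} [Field k] [Field k'] [Algebra k k'] [Field K] [Algebra k[X] K]
    [Field F] [Algebra k'[X] F] [IsFractionRing k'[X] F] [Algebra K F]

/-- **The theorem for all representations and all primes.** -/
theorem vanish_all (p : ℕ) [Fact p.Prime] [NumberField k] (hT : IsTower k k' K F) {J : Type}
    [Fintype J] (B : Module.Basis J ℤ (𝓞 k)) (L : IntermediateField K (Sep F))
    [FiniteDimensional K L] {P : k[X]} (hP : P ≠ 0) {n : ℕ} (hn : 3 ≤ n) :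
    ∃ N : ℕ, 0 < N ∧ ∀ η : ℝ, 0 < η → ∃ H0 : ℕ, ∀ H : ℕ, H0 ≤ H →
      (({x : Fin (n + 1) → 𝓞 k | (∀ j t, |B.repr (x j) t| ≤ (H : ℤ)) ∧
        ¬ VanishExt p k' K F L P N
          (∑ j : Fin (n + 1), C (algebraMap (𝓞 k) k (x j)) * X ^ (j : ℕ))}.ncard : ℕ) : ℝ) ≤
        η * (2 * H + 1) ^ (Fintype.card J * (n + 1)) := by
  obtain ⟨N, hN0, hN⟩ := dense_p (k' := k') (K := K) (F := F) (p := p)
    Pool.Agent.Helper57.RG.DLP.main Pool.Agent.Helper51.RL.KMP.main
    Pool.Agent.Helper61.RG.CJ1.main Pool.Agent.Helper61.RG.CJ2.main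
    (Pool.Agent.Helper51.RL.CP1.main (Pool.Agent.Helper10.RL.CHP.main
      Pool.Agent.Helper51.RL.KMP.main))
    Pool.Agent.Helper85.RG.su2 Pool.Agent.Helper54.RL.sp2 Pool.Agent.Helper54.RG.con
    (Pool.Agent.Helper49.RL.kpp Pool.Agent.Helper51.RL.KMP.main)
    (Pool.Agent.Helper49.RL.BDP.bdp Pool.Agent.Helper85.RG.mdg) hfP
    Pool.Agent.Helper47.RG.PRK.main irr (Pool.Agent.Helper79.RGK.irk irr) k1P hT B L hP hn
  exact ⟨N, hN0, fun η hη => count_box B (VanishExt p k' K F L P N) hN hη⟩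

end main

end Pool.Agent.Helper55.RL
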