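import Pool.Agent.Helper55.UV.Ext

/-!
# The lattices `p ^ m ℤ_p ^ d` and representations in `GL_d(ℤ_p)`
-/

set_option autoImplicit false
set_option linter.all false

open scoped Classical

namespace Pool.Agent.Helper55.RL

open Pool.Agent.Helper55.UV

section lat

variable {p : ℕ} [hpf : Fact p.Prime] {d : ℕ}

theorem one_lt_pR (p : ℕ) [hpf : Fact p.Prime] : (1 : ℝ) < p := by exact_mod_cast hpf.out.one_lt

theorem pR_ne (p : ℕ) [hpf : Fact p.Prime] : (p : ℝ) ≠ 0 := by exact_mod_cast hpf.out.ne_zero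

theorem pR_pos (p : ℕ) [hpf : Fact p.Prime] : (0 : ℝ) < p := by exact_mod_cast hpf.out.pos

/-- the lattice `2 ^ m ℤ₂ ^ d` -/
def LtP (p : ℕ) [Fact p.Prime] (d : ℕ) (m : ℤ) : AddSubgroup (Fin d → ℚ_[p]) where
  carrier := {v | ∀ i, ‖v i‖ ≤ (p : ℝ) ^ (-m)}
  zero_mem' := fun i => by
    show ‖(0 : ℚ_[p])‖ ≤ _
    rw [norm_zero]
    positivity
  add_mem' := fun {a b} ha hb i => by
    show ‖a i + b i‖ ≤ _
    exact (Padic.nonarchimedean _ _).trans (max_le (ha i) (hb i))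
  neg_mem' := fun {a} ha i => by
    show ‖-(a i)‖ ≤ _
    rw [norm_neg]
    exact ha i

theorem mem_LtP {m : ℤ} {v : Fin d → ℚ_[p]} : v ∈ LtP p d m ↔ ∀ i, ‖v i‖ ≤ (p : ℝ) ^ (-m) := Iff.rfl

theorem mem_LtP_norm {m : ℤ} {v : Fin d → ℚ_[p]} : v ∈ LtP p d m ↔ ‖v‖ ≤ (p : ℝ) ^ (-m) := by
  rw [mem_LtP, pi_norm_le_iff_of_nonneg (by positivity)]

theorem LtP_anti {m m' : ℤ} (h : m ≤ m') : LtP p d m' ≤ LtP p d m := by
  intro v hv i
  exact (hv i).trans (zpow_le_zpow_right₀ (one_lt_pR p).le (by omega))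

theorem norm_pp : ‖(p : ℚ_[p])‖ = (p : ℝ)⁻¹ := by
  have := Padic.norm_p (p := p)
  exact_mod_cast this

theorem pmul_mem {m : ℤ} {v : Fin d → ℚ_[p]} (h : v ∈ LtP p d m) :
    p • v ∈ LtP p d (m + 1) := by
  intro i
  show ‖p • v i‖ ≤ _
  rw [nsmul_eq_mul, norm_mul, norm_pp, neg_add, zpow_add₀ (pR_ne p), zpow_neg_one, mul_comm]
  exact mul_le_mul_of_nonneg_right (h i) (by have := pR_pos p; positivity)

theorem exists_mem_LtP (v : Fin d → ℚ_[p]) : ∃ m : ℤ, v ∈ LtP p d m := by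
  obtain ⟨n, hn⟩ := pow_unbounded_of_one_lt ‖v‖ (one_lt_pR p)
  refine ⟨-n, ?_⟩
  rw [mem_LtP_norm, neg_neg, zpow_natCast]
  exact hn.le

theorem eq_zero_of_mem {v : Fin d → ℚ_[p]} {m₀ : ℤ} (h : ∀ m, m₀ ≤ m → v ∈ LtP p d m) : v = 0 := by
  rw [← norm_eq_zero]
  by_contra hne
  have hpos : 0 < ‖v‖ := lt_of_le_of_ne (norm_nonneg _) (Ne.symm hne)
  obtain ⟨n, hn⟩ := pow_unbounded_of_one_lt (‖v‖)⁻¹ (one_lt_pR p)
  have h1 := mem_LtP_norm.1 (h (max m₀ n) (le_max_left _ _))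
  have h2 : (p : ℝ) ^ (-(max m₀ (n : ℤ))) ≤ (p : ℝ) ^ (-(n : ℤ)) :=
    zpow_le_zpow_right₀ (one_lt_pR p).le (by have := le_max_right m₀ (n : ℤ); omega)
  have h3 : (p : ℝ) ^ (-(n : ℤ)) < ‖v‖ := by
    rw [zpow_neg, zpow_natCast]
    exact inv_lt_of_inv_lt₀ hpos hn
  linarith

/-- linear maps are bounded -/
theorem bounded {e : ℕ} (Ψ : (Fin e → Fin d → ℚ_[p]) →ₗ[ℚ_[p]] (Fin d → ℚ_[p])) :
    ∃ M : ℕ, ∀ (m : ℤ) (w : Fin e → Fin d → ℚ_[p]), (∀ j, w j ∈ LtP p d m) →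
      Ψ w ∈ LtP p d (m - M) := by
  obtain ⟨C, hC⟩ := Ψ.toContinuousLinearMap.isBoundedLinearMap.bound
  obtain ⟨n, hn⟩ := pow_unbounded_of_one_lt C (one_lt_pR p)
  refine ⟨n, fun m w hw => ?_⟩
  rw [mem_LtP_norm]
  have h1 : ‖w‖ ≤ (p : ℝ) ^ (-m) := by
    rw [pi_norm_le_iff_of_nonneg (by positivity)]
    exact fun j => mem_LtP_norm.1 (hw j)
  have h2 : ‖Ψ w‖ ≤ C * ‖w‖ := hC.2 w
  refine h2.trans ?_
  have h3 : (p : ℝ) ^ (-(m - n)) = (p : ℝ) ^ n * (p : ℝ) ^ (-m) := by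
    rw [neg_sub, sub_eq_add_neg, zpow_add₀ (pR_ne p), zpow_natCast]
  rw [h3]
  exact mul_le_mul hn.le h1 (norm_nonneg _) (by positivity)

/-- an element of norm at most one as an element of `ℤ₂` -/
def zi (x : ℚ_[p]) (h : ‖x‖ ≤ 1) : ℤ_[p] := ⟨x, h⟩

theorem zi_coe (x : ℚ_[p]) (h : ‖x‖ ≤ 1) : ((zi x h : ℤ_[p]) : ℚ_[p]) = x := rfl

theorem relIndex_ne (m : ℤ) : (LtP p d (m + 1)).relIndex (LtP p d m) ≠ 0 := by
  have h2 : (p : ℚ_[p]) ≠ 0 := by exact_mod_cast hpf.out.ne_zero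
  have hn : ∀ v : LtP p d m, ∀ i, ‖(p : ℚ_[p]) ^ (-m) * v.1 i‖ ≤ 1 := by
    intro v i
    rw [norm_mul, norm_zpow, norm_pp, inv_zpow, ← zpow_neg, neg_neg]
    have h3 := v.2 i
    calc (p : ℝ) ^ m * ‖v.1 i‖ ≤ (p : ℝ) ^ m * (p : ℝ) ^ (-m) :=
        mul_le_mul_of_nonneg_left h3 (by positivity)
      _ = 1 := by rw [← zpow_add₀ (pR_ne p), add_neg_cancel, zpow_zero]
  let f : LtP p d m →+ (Fin d → ZMod p) :=
    { toFun := fun v i => PadicInt.toZMod (zi ((p : ℚ_[p]) ^ (-m) * v.1 i) (hn v i))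
      map_zero' := by
        funext i
        have : zi ((p : ℚ_[p]) ^ (-m) * (0 : LtP p d m).1 i) (hn 0 i) = 0 := by
          apply PadicInt.ext
          rw [zi_coe]
          show (p : ℚ_[p]) ^ (-m) * 0 = 0
          rw [mul_zero]
        show PadicInt.toZMod (zi ((p : ℚ_[p]) ^ (-m) * (0 : LtP p d m).1 i) (hn 0 i)) = 0
        rw [this, map_zero]
      map_add' := fun x y => by
        funext i
        have : zi ((p : ℚ_[p]) ^ (-m) * (x + y : LtP p d m).1 i) (hn (x + y) i) =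
            zi ((p : ℚ_[p]) ^ (-m) * x.1 i) (hn x i) + zi ((p : ℚ_[p]) ^ (-m) * y.1 i) (hn y i) := by
          apply PadicInt.ext
          rw [PadicInt.coe_add, zi_coe, zi_coe, zi_coe]
          show (p : ℚ_[p]) ^ (-m) * (x.1 i + y.1 i) = _
          rw [mul_add]
        show PadicInt.toZMod (zi ((p : ℚ_[p]) ^ (-m) * (x + y : LtP p d m).1 i) (hn (x + y) i)) =
          PadicInt.toZMod (zi ((p : ℚ_[p]) ^ (-m) * x.1 i) (hn x i)) +
            PadicInt.toZMod (zi ((p : ℚ_[p]) ^ (-m) * y.1 i) (hn y i))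
        rw [this, map_add] }
  have hk : f.ker ≤ (LtP p d (m + 1)).addSubgroupOf (LtP p d m) := by
    intro v hv i
    have h3 : PadicInt.toZMod (zi ((p : ℚ_[p]) ^ (-m) * v.1 i) (hn v i)) = 0 := congrFun hv i
    rw [← RingHom.mem_ker, PadicInt.ker_toZMod, PadicInt.maximalIdeal_eq_span_p,
      Ideal.mem_span_singleton, ← PadicInt.norm_lt_one_iff_dvd] at h3
    have h4 : ‖(p : ℚ_[p]) ^ (-m) * v.1 i‖ < 1 := h3
    have h5 : ‖(p : ℚ_[p]) ^ (-m) * v.1 i‖ ≤ (p : ℝ)⁻¹ := by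
      have h6 := (Padic.norm_lt_pow_iff_norm_le_pow_sub_one (p := p)
        ((p : ℚ_[p]) ^ (-m) * v.1 i) 0)
      have h7 := h6.1 (by rw [zpow_zero]; exact h4)
      rw [zero_sub, zpow_neg_one] at h7
      exact_mod_cast h7
    rw [norm_mul, norm_zpow, norm_pp, inv_zpow, ← zpow_neg, neg_neg] at h5
    show ‖v.1 i‖ ≤ _
    rw [neg_add, zpow_add₀ (pR_ne p), zpow_neg_one]
    have h8 : (0 : ℝ) < (p : ℝ) ^ m := zpow_pos (pR_pos p) m
    rw [zpow_neg, ← div_eq_inv_mul, le_div_iff₀ h8, mul_comm]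
    exact h5
  have h1 : f.ker.index ≠ 0 := by
    rw [AddSubgroup.index_ker]
    exact Nat.card_pos.ne'
  intro h0
  apply h1
  have h3 := AddSubgroup.index_dvd_of_le hk
  have h4 : ((LtP p d (m + 1)).addSubgroupOf (LtP p d m)).index = 0 := h0
  rw [h4] at h3
  exact Nat.eq_zero_of_zero_dvd h3

end lat

section rep

variable {p : ℕ} [hpf : Fact p.Prime] {Γ : Type} [Group Γ] {d : ℕ}

/-- The action on `ℚ₂ ^ d` of a group with a homomorphism to `GL_d(ℤ₂)`. -/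
noncomputable def acP (ρ : Γ →* GL (Fin d) ℤ_[p]) : Γ →* AddMonoid.End (Fin d → ℚ_[p]) where
  toFun σ := (Matrix.mulVecLin ((ρ σ).1.map (algebraMap ℤ_[p] ℚ_[p]))).toAddMonoidHom
  map_one' := by
    ext v i
    show ((ρ 1).1.map (algebraMap ℤ_[p] ℚ_[p])).mulVec v i = v i
    rw [map_one, Units.val_one, Matrix.map_one _ (map_zero _) (map_one _), Matrix.one_mulVec]
  map_mul' σ τ := by
    ext v i
    show ((ρ (σ * τ)).1.map (algebraMap ℤ_[p] ℚ_[p])).mulVec v i =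
      ((ρ σ).1.map (algebraMap ℤ_[p] ℚ_[p])).mulVec
        (((ρ τ).1.map (algebraMap ℤ_[p] ℚ_[p])).mulVec v) i
    rw [map_mul, Units.val_mul, Matrix.map_mul, Matrix.mulVec_mulVec]

theorem acP_apply (ρ : Γ →* GL (Fin d) ℤ_[p]) (σ : Γ) (v : Fin d → ℚ_[p]) :
    acP ρ σ v = ((ρ σ).1.map (algebraMap ℤ_[p] ℚ_[p])).mulVec v := rfl

theorem mulVec_mem {M : Matrix (Fin d) (Fin d) ℤ_[p]} {n : ℕ} (hM : ∀ i j, ‖M i j‖ ≤ (p : ℝ) ^ (-(n : ℤ)))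
    {m : ℤ} {v : Fin d → ℚ_[p]} (hv : v ∈ LtP p d m) :
    (M.map (algebraMap ℤ_[p] ℚ_[p])).mulVec v ∈ LtP p d (m + n) := by
  intro i
  show ‖∑ j, (algebraMap ℤ_[p] ℚ_[p]) (M i j) * v j‖ ≤ _
  refine IsUltrametricDist.norm_sum_le_of_forall_le_of_nonneg (by positivity) ?_
  intro j _
  rw [norm_mul, neg_add, zpow_add₀ (pR_ne p), mul_comm]
  exact mul_le_mul (hv j) (hM i j) (norm_nonneg _) (by positivity)

theorem ac_mem (ρ : Γ →* GL (Fin d) ℤ_[p]) (σ : Γ) {m : ℤ} {v : Fin d → ℚ_[p]}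
    (hv : v ∈ LtP p d m) : acP ρ σ v ∈ LtP p d m := by
  have := mulVec_mem (n := 0) (M := (ρ σ).1) (fun i j => by
    rw [Nat.cast_zero, neg_zero, zpow_zero]
    exact PadicInt.norm_le_one _) hv
  rwa [Nat.cast_zero, add_zero] at this

theorem ac_sub_mem (ρ : Γ →* GL (Fin d) ℤ_[p]) {σ : Γ} {n : ℕ}
    (h : ∀ i j, ‖((ρ σ).1 - 1) i j‖ ≤ (p : ℝ) ^ (-(n : ℤ)))
    {m : ℤ} {v : Fin d → ℚ_[p]} (hv : v ∈ LtP p d m) : acP ρ σ v - v ∈ LtP p d (m + n) := by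
  have := mulVec_mem (M := (ρ σ).1 - 1) h hv
  have e : (((ρ σ).1 - 1).map (algebraMap ℤ_[p] ℚ_[p])).mulVec v = acP ρ σ v - v := by
    rw [Matrix.map_sub _ (fun a b => map_sub _ a b), Matrix.sub_mulVec,
      Matrix.map_one _ (map_zero _) (map_one _), Matrix.one_mulVec, acP_apply]
  rwa [e] at this

end rep

end Pool.Agent.Helper55.RL
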